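import Mathlib

set_option autoImplicit false

namespace Pool.Agent.Hhelper66.Sep

variable {V : Type}

/-- Every vertex has finitely many neighbours. -/
def IsLocallyFinite (Γ : SimpleGraph V) : Prop := ∀ v, (Γ.neighborSet v).Finite

/-- The automorphism group acts on the vertices with finitely many orbits: every vertex is the
image of a vertex of a fixed finite set under an automorphism. -/
def IsQuasiTransitive (Γ : SimpleGraph V) : Prop :=
  ∃ F : Set V, F.Finite ∧ ∀ v, ∃ u ∈ F, ∃ φ : Γ ≃g Γ, φ u = v

/-- The automorphism group acts transitively on the vertices. -/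
def IsVertexTransitive (Γ : SimpleGraph V) : Prop := ∀ u v, ∃ φ : Γ ≃g Γ, φ u = v

/-- Gromov hyperbolicity of the vertex set with the graph metric: for some `δ ≥ 0`, for every
geodesic triangle with sides `p : x → y`, `q : y → z`, `s : z → x` (walks whose length is the
distance of their end points), every vertex of the side `p` is at distance at most `δ` from a
vertex of `q` or of `s` (the triangle being arbitrary, this covers all three sides). -/
def IsHyperbolic (Γ : SimpleGraph V) : Prop :=
  ∃ δ : ℝ, 0 ≤ δ ∧ ∀ (x y z : V) (p : Γ.Walk x y) (q : Γ.Walk y z) (s : Γ.Walk z x),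
    p.length = Γ.dist x y → q.length = Γ.dist y z → s.length = Γ.dist z x →
      ∀ v ∈ p.support, ∃ w, (w ∈ q.support ∨ w ∈ s.support) ∧ (Γ.dist v w : ℝ) ≤ δ

/-- `cut Λ`: the least size of a set `S` of vertices of the subgraph `Λ` such that every connected
component of `Λ - S` has at most `|V(Λ)| / 2` vertices. -/
noncomputable def cut {Γ : SimpleGraph V} (Λ : Γ.Subgraph) : ℕ :=
  sInf {k | ∃ S ⊆ Λ.verts, S.ncard = k ∧
    ∀ c : (Λ.deleteVerts S).coe.ConnectedComponent, 2 * c.supp.ncard ≤ Λ.verts.ncard}

/-- The separation profile: the maximum of `cut Λ` over the subgraphs `Λ` with at most `n`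
vertices. -/
noncomputable def sep (Γ : SimpleGraph V) (n : ℕ) : ℕ :=
  sSup {k | ∃ Λ : Γ.Subgraph, Λ.verts.Finite ∧ Λ.verts.ncard ≤ n ∧ cut Λ = k}

end Pool.Agent.Hhelper66.Sep
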