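import Mathlib
import Pool.Agent.Hhelper66.Sep.Defs

/-!
In a locally finite vertex transitive hyperbolic graph, finite groups of automorphisms acting
freely have bounded order.
-/

set_option autoImplicit false

namespace Pool.Agent.Hhelper66.Sep

variable {V : Type} {Γ : SimpleGraph V}

lemma dist_iso (hconn : Γ.Connected) (φ : Γ ≃g Γ) (u v : V) : Γ.dist (φ u) (φ v) = Γ.dist u v := by
  have key : ∀ (ψ : Γ ≃g Γ) (a b : V), Γ.dist (ψ a) (ψ b) ≤ Γ.dist a b := by
    intro ψ a b
    obtain ⟨p, hp⟩ := hconn.exists_walk_length_eq_dist a b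
    rw [← hp, ← SimpleGraph.Walk.length_map ψ.toHom p]
    exact SimpleGraph.dist_le _
  apply le_antisymm (key φ u v)
  have := key φ.symm (φ u) (φ v)
  simpa using this

lemma geod_split (hconn : Γ.Connected) {x y w : V} (q : Γ.Walk x y) (hq : q.length = Γ.dist x y)
    (hw : w ∈ q.support) : Γ.dist x w + Γ.dist w y = Γ.dist x y := by
  classical
  apply le_antisymm
  · rw [← hq]
    have h1 := congrArg SimpleGraph.Walk.length (q.take_spec hw)
    rw [SimpleGraph.Walk.length_append] at h1
    have h2 := SimpleGraph.dist_le (q.takeUntil w hw)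
    have h3 := SimpleGraph.dist_le (q.dropUntil w hw)
    omega
  · exact hconn.dist_triangle

/-- balls are finite -/
lemma ball_finite (hconn : Γ.Connected) (hlf : IsLocallyFinite Γ) (v : V) (n : ℕ) :
    {w | Γ.dist v w ≤ n}.Finite := by
  induction n with
  | zero =>
    refine (Set.finite_singleton v).subset ?_
    intro w hw
    have : Γ.dist v w = 0 := Nat.le_zero.1 hw
    rw [hconn.dist_eq_zero_iff] at this
    exact this.symm
  | succ n ih =>
    have : {w | Γ.dist v w ≤ n + 1} ⊆ {w | Γ.dist v w ≤ n} ∪ ⋃ u ∈ {w | Γ.dist v w ≤ n}, Γ.neighborSet u := by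
      intro w hw
      have hw' : Γ.dist v w ≤ n + 1 := hw
      rcases Nat.lt_or_ge n (Γ.dist v w) with h | h
      · right
        obtain ⟨p, hp⟩ := hconn.exists_walk_length_eq_dist w v
        rw [SimpleGraph.dist_comm] at hp
        cases p with
        | nil => simp only [SimpleGraph.Walk.length_nil] at hp; omega
        | cons hadj p' =>
          rename_i u
          rw [Set.mem_iUnion₂]
          refine ⟨u, ?_, ?_⟩
          · have h1 := SimpleGraph.dist_le p'
            rw [SimpleGraph.Walk.length_cons] at hp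
            rw [SimpleGraph.dist_comm] at h1
            change Γ.dist v u ≤ n
            omega
          · exact hadj.symm
      · left; exact h
    exact (ih.union (ih.biUnion fun u _ => hlf u)).subset this

lemma ball_bound (hconn : Γ.Connected) (hlf : IsLocallyFinite Γ) (htr : IsVertexTransitive Γ)
    (n : ℕ) : ∃ B : ℕ, ∀ v, {w | Γ.dist v w ≤ n}.ncard ≤ B := by
  obtain ⟨v0⟩ := hconn.nonempty
  refine ⟨{w | Γ.dist v0 w ≤ n}.ncard, fun v => ?_⟩
  obtain ⟨φ, hφ⟩ := htr v0 v
  have : {w | Γ.dist v w ≤ n} ⊆ φ '' {w | Γ.dist v0 w ≤ n} := by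
    intro w hw
    refine ⟨φ.symm w, ?_, by simp⟩
    have h1 := dist_iso hconn φ v0 (φ.symm w)
    rw [hφ] at h1
    simp only [RelIso.apply_symm_apply] at h1
    change Γ.dist v0 (φ.symm w) ≤ n
    rw [← h1]; exact hw
  refine (Set.ncard_le_ncard this ((ball_finite hconn hlf v0 n).image _)).trans ?_
  exact Set.ncard_image_le (ball_finite hconn hlf v0 n)

/-- the centre argument -/
theorem not_hyperbolic_of (hconn : Γ.Connected) (hlf : IsLocallyFinite Γ)
    (htr : IsVertexTransitive Γ)
    (h : ∀ B : ℕ, ∃ (q : ℕ) (φ : Fin q → (Γ ≃g Γ)), B < q ∧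
      (∀ v, Function.Injective fun k => φ k v) ∧
      (∀ l k, ∃ k', ∀ v, φ l (φ k' v) = φ k v)) : ¬ IsHyperbolic Γ := by
  rintro ⟨δ, hδ0, hδ⟩
  obtain ⟨D, hD⟩ := exists_nat_ge δ
  obtain ⟨B, hB⟩ := ball_bound hconn hlf htr (4 * D + 1)
  obtain ⟨q, φ, hBq, hinj, hcl⟩ := h B
  have hq0 : 0 < q := by omega
  have : NeZero q := ⟨hq0.ne'⟩
  obtain ⟨v0⟩ := hconn.nonempty
  let R : V → ℕ := fun c => Finset.univ.sup fun k : Fin q => Γ.dist c (φ k v0)
  have hR : ∀ c (k : Fin q), Γ.dist c (φ k v0) ≤ R c := fun c k =>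
    Finset.le_sup (f := fun k : Fin q => Γ.dist c (φ k v0)) (Finset.mem_univ k)
  obtain ⟨c, hc⟩ : ∃ c, ∀ c', R c ≤ R c' := by
    have hne : (Set.range R).Nonempty := ⟨R v0, v0, rfl⟩
    obtain ⟨c, hc⟩ := Nat.sInf_mem hne
    exact ⟨c, fun c' => by rw [hc]; exact Nat.sInf_le ⟨c', rfl⟩⟩
  -- the orbit of the centre is small
  have hsmall : ∀ l : Fin q, Γ.dist c (φ l c) ≤ 4 * D + 1 := by
    intro l
    by_contra hcon
    push Not at hcon
    have hRl : R (φ l c) ≤ R c := by
      apply Finset.sup_le
      intro k _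
      obtain ⟨k', hk'⟩ := hcl l k
      rw [← hk', dist_iso hconn]
      exact hR c k'
    obtain ⟨p, hp⟩ := hconn.exists_walk_length_eq_dist c (φ l c)
    set d := Γ.dist c (φ l c) with hd
    set m := p.getVert (d / 2) with hm
    have hmp : m ∈ p.support := p.getVert_mem_support _
    have h1 : Γ.dist c m ≤ d / 2 := by
      have := SimpleGraph.dist_le (p.take (d / 2))
      rw [SimpleGraph.Walk.take_length] at this
      exact this.trans (min_le_left _ _)
    have h2 := geod_split hconn p hp hmp
    have h3 : Γ.dist m (φ l c) ≤ d - d / 2 := by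
      have := SimpleGraph.dist_le (p.drop (d / 2))
      rw [SimpleGraph.Walk.drop_length, hp] at this
      exact this
    have hlt : R m < R c := by
      have hterm : ∀ k : Fin q, Γ.dist m (φ k v0) < R c := by
        intro k
        obtain ⟨p1, hp1⟩ := hconn.exists_walk_length_eq_dist (φ l c) (φ k v0)
        obtain ⟨p2, hp2⟩ := hconn.exists_walk_length_eq_dist (φ k v0) c
        obtain ⟨w, hw, hmw⟩ := hδ _ _ _ p p1 p2 hp hp1 hp2 m hmp
        have hmw' : Γ.dist m w ≤ D := by
          have : (Γ.dist m w : ℝ) ≤ D := hmw.trans hD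
          exact_mod_cast this
        have h6 : Γ.dist m (φ k v0) ≤ Γ.dist m w + Γ.dist w (φ k v0) := hconn.dist_triangle
        rcases hw with hw | hw
        · have h4 := geod_split hconn p1 hp1 hw
          have h5 : Γ.dist (φ l c) m ≤ Γ.dist (φ l c) w + Γ.dist w m := hconn.dist_triangle
          have h7 := (hR (φ l c) k).trans hRl
          rw [SimpleGraph.dist_comm (u := φ l c) (v := m), SimpleGraph.dist_comm (u := w) (v := m)] at h5
          omega
        · have h4 := geod_split hconn p2 hp2 hw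
          have h5 : Γ.dist c m ≤ Γ.dist c w + Γ.dist w m := hconn.dist_triangle
          have h7 := hR c k
          rw [SimpleGraph.dist_comm (u := w) (v := m), SimpleGraph.dist_comm (u := c) (v := w)] at h5
          rw [SimpleGraph.dist_comm (u := φ k v0) (v := w), SimpleGraph.dist_comm (u := φ k v0) (v := c)] at h4
          omega
      have hpos : 0 < R c := lt_of_le_of_lt (Nat.zero_le _) (hterm 0)
      exact (Finset.sup_lt_iff hpos).2 fun k _ => hterm k
    exact absurd (hc m) (not_le.2 hlt)
  -- count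
  have h1 : (Set.range fun k : Fin q => φ k c).ncard = q := by
    rw [← Set.image_univ, Set.ncard_image_of_injective _ (hinj c), Set.ncard_univ]
    simp
  have h2 : (Set.range fun k : Fin q => φ k c).ncard ≤ {w | Γ.dist c w ≤ 4 * D + 1}.ncard := by
    refine Set.ncard_le_ncard ?_ (ball_finite hconn hlf c _)
    rintro _ ⟨l, rfl⟩
    exact hsmall l
  have := hB c
  omega

end Pool.Agent.Hhelper66.Sep
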