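import Mathlib

/-!
Perfect elimination structures and balanced separators.
-/

set_option autoImplicit false

namespace Pool.Agent.Hhelper66.Sep

open Relation

variable {V : Type*}

/-- `A u v` means: `u` is an earlier neighbour of `v`.  `Des A u v` means that `v` is an iterated
earlier neighbour of `u`. -/
def Des (A : V → V → Prop) (u v : V) : Prop := ReflTransGen (fun a b => A b a) u v

/-- chordality -/
def Chordal (A : V → V → Prop) : Prop :=
  ∀ u u' v, A u v → A u' v → u = u' ∨ A u u' ∨ A u' u

/-- adjacency in the chordal graph -/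
def Adj' (A : V → V → Prop) (u v : V) : Prop := A u v ∨ A v u

lemma Adj'.symm {A : V → V → Prop} {u v : V} (h : Adj' A u v) : Adj' A v u := Or.symm h

lemma Des.refl {A : V → V → Prop} (u : V) : Des A u u := ReflTransGen.refl

lemma Des.trans {A : V → V → Prop} {u v w : V} (h : Des A u v) (h' : Des A v w) : Des A u w :=
  ReflTransGen.trans h h'

lemma Des.of {A : V → V → Prop} {u v : V} (h : A v u) : Des A u v := ReflTransGen.single h

lemma Des.le {R : Type*} [LinearOrder R] {A : V → V → Prop} {rk : V → R}
    (hrk : ∀ u v, A u v → rk u < rk v) {u v : V} (h : Des A u v) :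
    v = u ∨ rk v < rk u := by
  induction h with
  | refl => exact Or.inl rfl
  | tail _ h2 ih =>
    right
    rcases ih with rfl | ih
    · exact hrk _ _ h2
    · exact (hrk _ _ h2).trans ih

lemma push {A : V → V → Prop} (hA : Chordal A) {b s : V} (h : Des A b s) :
    ∀ b', A b' b → Des A b' s ∨ A b' s := by
  unfold Des at h
  induction h using ReflTransGen.head_induction_on with
  | refl => exact fun b' h => Or.inr h
  | head h1 h2 ih =>
    intro b' hb'
    rename_i b c
    rcases hA _ _ _ hb' h1 with rfl | h | h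
    · exact Or.inl h2
    · exact ih _ h
    · exact Or.inl ((Des.of h).trans h2)

lemma Des.compare {A : V → V → Prop} (hA : Chordal A) {u t v : V} (ht : Des A u t)
    (hv : Des A u v) : Des A t v ∨ Des A v t := by
  unfold Des at ht
  induction ht with
  | refl => exact Or.inl hv
  | tail _ h2 ih =>
    rcases ih with ih | ih
    · rcases push hA ih _ h2 with h | h
      · exact Or.inl h
      · exact Or.inr (Des.of h)
    · exact Or.inr (ih.trans (Des.of h2))

/-- connectivity inside a set -/
def Conn (A : V → V → Prop) (B : Set V) (u v : V) : Prop :=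
  ReflTransGen (fun a b => b ∈ B ∧ Adj' A a b) u v

lemma Conn.trans {A : V → V → Prop} {B : Set V} {u v w : V} (h : Conn A B u v)
    (h' : Conn A B v w) : Conn A B u w := ReflTransGen.trans h h'

lemma Conn.mono {A : V → V → Prop} {B B' : Set V} (hB : B ⊆ B') {u v : V} (h : Conn A B u v) :
    Conn A B' u v :=
  ReflTransGen.mono (r := fun a b => b ∈ B ∧ Adj' A a b) (p := fun a b => b ∈ B' ∧ Adj' A a b)
    (fun _ _ h => ⟨hB h.1, h.2⟩) _ _ h

lemma Conn.symm {A : V → V → Prop} {B : Set V} {u v : V} (h : Conn A B u v) (hu : u ∈ B) :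
    v ∈ B ∧ Conn A B v u := by
  unfold Conn at h
  induction h with
  | refl => exact ⟨hu, ReflTransGen.refl⟩
  | tail _ h2 ih => exact ⟨h2.1, ReflTransGen.head ⟨ih.1, h2.2.symm⟩ ih.2⟩

lemma Conn.top {A : V → V → Prop} (hA : Chordal A) {B : Set V} {t u : V} (ht : t ∈ B)
    (h : Conn A B t u) : ∃ w ∈ B, Des A t w ∧ Des A u w := by
  unfold Conn at h
  induction h with
  | refl => exact ⟨t, ht, Des.refl _, Des.refl _⟩
  | tail _ h2 ih =>
    obtain ⟨w, hw, h3, h4⟩ := ih
    rcases h2.2 with h | h
    · exact ⟨w, hw, h3, (Des.of h).trans h4⟩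
    · rcases Des.compare hA h4 (Des.of h) with h5 | h5
      · exact ⟨_, h2.1, h3.trans h5, Des.refl _⟩
      · exact ⟨w, hw, h3, h5⟩

lemma Conn.excl {A : V → V → Prop} (hA : Chordal A) {B : Set V} {s : V}
    (hs : ∀ b ∈ B, ¬ A b s) {t u : V} (h : Conn A B u t) (hu : Des A u s) : Des A t s := by
  unfold Conn at h
  induction h with
  | refl => exact hu
  | tail _ h2 ih =>
    rcases h2.2 with h | h
    · exact (Des.of h).trans ih
    · rcases push hA ih _ h with h5 | h5
      · exact h5
      · exact absurd h5 (hs _ h2.1)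

/-- reachability in `G` avoiding `S` -/
def ReachAvoid {L : Type*} (G : SimpleGraph L) (S : Set L) (a c : L) : Prop :=
  ReflTransGen (fun x y => G.Adj x y ∧ y ∉ S) a c

/-- Balanced separator from a perfect elimination structure (minor form). -/
theorem exists_separator {R : Type*} [LinearOrder R] {A : V → V → Prop} {rk : V → R}
    (hrk : ∀ u v, A u v → rk u < rk v) (hA : Chordal A) {k : ℕ}
    (hfin : ∀ s, {u | A u s}.Finite) (hk : ∀ s, {u | A u s}.ncard ≤ k)
    {L : Type*} [Fintype L] (G : SimpleGraph L) (B : L → Set V) (hBfin : ∀ l, (B l).Finite)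
    (b : L → V) (hb : ∀ l, b l ∈ B l) (hconn : ∀ l, ∀ u ∈ B l, Conn A (B l) (b l) u)
    (hadj : ∀ l l', G.Adj l l' → ∃ u ∈ B l, ∃ u' ∈ B l', Adj' A u u')
    (hdisj : ∀ l l' u, u ∈ B l → u ∈ B l' → l = l') :
    ∃ S : Finset L, S.card ≤ k + 1 ∧ ∀ a, a ∉ S →
      2 * {c | ReachAvoid G (S : Set L) a c}.ncard ≤ Fintype.card L := by
  classical
  let n : V → ℕ := fun s => {l : L | Des A (b l) s}.ncard
  -- generic part
  have key : ∀ (S : Finset L) (a : L), a ∉ S → ∃ t ∈ ⋃ c ∈ {c | ReachAvoid G (S : Set L) a c}, B c,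
      ∀ u ∈ ⋃ c ∈ {c | ReachAvoid G (S : Set L) a c}, B c,
        Conn A (⋃ c ∈ {c | ReachAvoid G (S : Set L) a c}, B c) u t ∧ Des A u t := by
    intro S a ha
    set C : Set L := {c | ReachAvoid G (S : Set L) a c} with hC
    set BC : Set V := ⋃ c ∈ C, B c with hBC
    have haC : a ∈ C := ReflTransGen.refl
    have hsub : ∀ c ∈ C, B c ⊆ BC := fun c hc => Set.subset_biUnion_of_mem (u := B) hc
    have hBCfin : BC.Finite := Set.Finite.biUnion (Set.toFinite C) (fun c _ => hBfin c)
    have hconn0 : ∀ c, ReachAvoid G (S : Set L) a c → Conn A BC (b a) (b c) := by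
      intro c hc
      induction hc with
      | refl => exact ReflTransGen.refl
      | tail h1 h2 ih =>
        rename_i c d
        have hcC : c ∈ C := h1
        have hdC : d ∈ C := ReflTransGen.tail h1 h2
        obtain ⟨u, hu, u', hu', huu'⟩ := hadj _ _ h2.1
        have e1 : Conn A BC (b c) u := (hconn c u hu).mono (hsub c hcC)
        have e2 : Conn A BC u u' := ReflTransGen.single ⟨hsub d hdC hu', huu'⟩
        have e3 : Conn A BC u' (b d) := (((hconn d u' hu').symm (hb d)).2).mono (hsub d hdC)
        exact ((ih.trans e1).trans e2).trans e3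
    have hconn1 : ∀ u ∈ BC, Conn A BC (b a) u := by
      intro u hu
      rw [hBC, Set.mem_iUnion₂] at hu
      obtain ⟨c, hc, hu⟩ := hu
      exact (hconn0 c hc).trans ((hconn c u hu).mono (hsub c hc))
    have hba : b a ∈ BC := hsub a haC (hb a)
    obtain ⟨t, htBC, htmin⟩ := Set.exists_min_image BC rk hBCfin ⟨b a, hba⟩
    refine ⟨t, htBC, fun u hu => ?_⟩
    have hut : Conn A BC u t := ((hconn1 u hu).symm hba).2.trans (hconn1 t htBC)
    refine ⟨hut, ?_⟩
    obtain ⟨w, hw, h1, h2⟩ := Conn.top hA hu hut
    rcases Des.le hrk h2 with rfl | h3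
    · exact h1
    · exact absurd h3 (not_lt.2 (htmin w hw))
  by_cases hV : ∃ s ∈ ⋃ l, B l, Fintype.card L < 2 * n s
  · -- choose s of maximal rank
    have hfinU : ({s | s ∈ ⋃ l, B l ∧ Fintype.card L < 2 * n s}).Finite :=
      (Set.finite_iUnion hBfin).subset (fun s hs => hs.1)
    obtain ⟨s0, hs0, hs0'⟩ := hV
    obtain ⟨s, ⟨_, hsn⟩, hsmax⟩ := Set.exists_max_image _ rk hfinU ⟨s0, hs0, hs0'⟩
    let S : Finset L := Finset.univ.filter fun l => ∃ u ∈ B l, u = s ∨ A u s
    have hSmem : ∀ l, l ∈ S ↔ ∃ u ∈ B l, u = s ∨ A u s := by intro l; simp [S]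
    refine ⟨S, ?_, ?_⟩
    · -- cardinality
      have hT : (insert s {u | A u s}).Finite := (hfin s).insert s
      have h1 : ∀ l ∈ S, ∃ u ∈ B l, u ∈ hT.toFinset := by
        intro l hl
        obtain ⟨u, hu, h⟩ := (hSmem l).1 hl
        refine ⟨u, hu, ?_⟩
        rw [Set.Finite.mem_toFinset]
        exact h
      have : Nonempty V := ⟨s⟩
      choose! f hf1 hf2 using h1
      have h2 : S.card ≤ hT.toFinset.card := by
        refine Finset.card_le_card_of_injOn f (fun l hl => hf2 l hl) ?_
        intro l hl l' hl' he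
        have h3 := hf1 l hl
        have h4 := hf1 l' hl'
        rw [he] at h3
        exact hdisj _ _ _ h3 h4
      have h3 : hT.toFinset.card ≤ k + 1 := by
        rw [← Set.ncard_eq_toFinset_card _ hT]
        exact (Set.ncard_insert_le _ _).trans (Nat.add_le_add_right (hk s) 1)
      exact h2.trans h3
    · intro a ha
      obtain ⟨t, htBC, ht⟩ := key S a ha
      set C : Set L := {c | ReachAvoid G (S : Set L) a c} with hC
      set BC : Set V := ⋃ c ∈ C, B c with hBC
      have hsub : ∀ c ∈ C, B c ⊆ BC := fun c hc => Set.subset_biUnion_of_mem (u := B) hc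
      have hCS : ∀ c ∈ C, c ∉ S := by
        intro c hc
        rcases ReflTransGen.cases_tail hc with rfl | ⟨d, _, h⟩
        · exact ha
        · exact h.2
      have hBCs : ∀ u ∈ BC, u ≠ s ∧ ¬ A u s := by
        intro u hu
        rw [hBC, Set.mem_iUnion₂] at hu
        obtain ⟨c, hc, hu⟩ := hu
        have := hCS c hc
        rw [hSmem] at this
        push Not at this
        exact this u hu
      by_cases hts : Des A t s
      · -- t below s
        have hlt : rk s < rk t := by
          rcases Des.le hrk hts with h | h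
          · exact absurd h.symm (hBCs t htBC).1
          · exact h
        have hnt : 2 * n t ≤ Fintype.card L := by
          by_contra hcon
          push Not at hcon
          have htU : t ∈ ⋃ l, B l := by
            rw [hBC, Set.mem_iUnion₂] at htBC
            obtain ⟨c, _, hu⟩ := htBC
            exact Set.mem_iUnion.2 ⟨c, hu⟩
          exact absurd hlt (not_lt.2 (hsmax t ⟨htU, hcon⟩))
        have hCn : C.ncard ≤ n t := by
          refine Set.ncard_le_ncard ?_ (Set.toFinite _)
          intro c hc
          exact (ht (b c) (hsub c hc (hb c))).2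
        omega
      · have hdis : ∀ c ∈ C, ¬ Des A (b c) s := by
          intro c hc hcs
          apply hts
          exact Conn.excl hA (fun x hx => (hBCs x hx).2) (ht (b c) (hsub c hc (hb c))).1 hcs
        have h1 : C.ncard + n s ≤ Fintype.card L := by
          have hd : Disjoint C {l : L | Des A (b l) s} := by
            rw [Set.disjoint_left]
            exact hdis
          have := Set.ncard_union_eq hd (Set.toFinite _) (Set.toFinite _)
          rw [← this]
          have h2 := Set.ncard_le_ncard (Set.subset_univ (C ∪ {l : L | Des A (b l) s})) (Set.toFinite _)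
          rwa [Set.ncard_univ, Nat.card_eq_fintype_card] at h2
        omega
  · push Not at hV
    refine ⟨∅, by simp, ?_⟩
    intro a ha
    obtain ⟨t, htBC, ht⟩ := key ∅ a ha
    set C : Set L := {c | ReachAvoid G ((∅ : Finset L) : Set L) a c} with hC
    set BC : Set V := ⋃ c ∈ C, B c with hBC
    have hsub : ∀ c ∈ C, B c ⊆ BC := fun c hc => Set.subset_biUnion_of_mem (u := B) hc
    have htU : t ∈ ⋃ l, B l := by
      rw [hBC, Set.mem_iUnion₂] at htBC
      obtain ⟨c, _, hu⟩ := htBC
      exact Set.mem_iUnion.2 ⟨c, hu⟩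
    have hCn : C.ncard ≤ n t := by
      refine Set.ncard_le_ncard ?_ (Set.toFinite _)
      intro c hc
      exact (ht (b c) (hsub c hc (hb c))).2
    have := hV t htU
    omega

end Pool.Agent.Hhelper66.Sep
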