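import Mathlib

/-!
The 3-regular tree `ℤ × ℕ` with its parent map, and elimination orders on cyclic groups.
-/

set_option autoImplicit false

namespace Pool.Agent.Hhelper66.Sep

/-- the vertices of the 3-regular tree with a marked end -/
abbrev T : Type := ℤ × ℕ

/-- the parent map -/
def par (x : T) : T := (x.1 + 1, x.2 / 2)

lemma par_iter (i : ℕ) (x : T) : par^[i] x = (x.1 + i, x.2 / 2 ^ i) := by
  induction i with
  | zero => simp
  | succ i ih =>
    rw [Function.iterate_succ_apply', ih]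
    simp only [par, Nat.cast_add, Nat.cast_one, pow_succ, Nat.div_div_eq_div_mul, add_assoc]

/-- descendants up to depth `n` -/
def Dl (n : ℕ) (y : T) : Set T := {u | ∃ i ≤ n, par^[i] u = y}

lemma Dl_finite (n : ℕ) (y : T) : (Dl n y).Finite ∧ (Dl n y).ncard ≤ 2 ^ (n + 1) := by
  induction n with
  | zero =>
    have : Dl 0 y = {y} := by
      ext u; simp [Dl]
    rw [this]
    simp
  | succ n ih =>
    have h : Dl (n + 1) y ⊆ Dl n y ∪
        (fun j : ℕ => ((y.1 - (n + 1 : ℕ), y.2 * 2 ^ (n + 1) + j) : T)) '' (Set.Iio (2 ^ (n + 1))) := by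
      rintro u ⟨i, hi, hu⟩
      rcases Nat.lt_or_ge n i with h | h
      · right
        have : i = n + 1 := by omega
        subst this
        rw [par_iter] at hu
        refine ⟨u.2 % 2 ^ (n + 1), Nat.mod_lt _ (by positivity), ?_⟩
        rw [← hu]
        ext
        · push_cast; ring
        · simp only
          rw [mul_comm]
          exact Nat.div_add_mod _ _
      · left; exact ⟨i, h, hu⟩
    have hfin : ((fun j : ℕ => ((y.1 - (n + 1 : ℕ), y.2 * 2 ^ (n + 1) + j) : T)) ''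
        (Set.Iio (2 ^ (n + 1)))).Finite := (Set.finite_Iio _).image _
    refine ⟨(ih.1.union hfin).subset h, ?_⟩
    refine (Set.ncard_le_ncard h (ih.1.union hfin)).trans ?_
    refine (Set.ncard_union_le _ _).trans ?_
    have h2 : ((fun j : ℕ => ((y.1 - (n + 1 : ℕ), y.2 * 2 ^ (n + 1) + j) : T)) ''
        (Set.Iio (2 ^ (n + 1)))).ncard ≤ 2 ^ (n + 1) := by
      refine (Set.ncard_image_le (Set.finite_Iio _)).trans ?_
      rw [Set.ncard_eq_toFinset_card' ]
      simp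
    calc _ ≤ 2 ^ (n + 1) + 2 ^ (n + 1) := add_le_add ih.2 h2
      _ = 2 ^ (n + 1 + 1) := by ring

/-- the order on the tree: larger level first, then smaller index -/
def ltT (u x : T) : Prop := x.1 < u.1 ∨ (x.1 = u.1 ∧ u.2 < x.2)

/-- order on `T × ℕ` -/
def ltTF (u x : T × ℕ) : Prop := ltT u.1 x.1 ∨ (u.1 = x.1 ∧ u.2 < x.2)

lemma ltTF_total (u x : T × ℕ) : u = x ∨ ltTF u x ∨ ltTF x u := by
  obtain ⟨⟨a, b⟩, c⟩ := u
  obtain ⟨⟨a', b'⟩, c'⟩ := x
  simp only [ltTF, ltT, Prod.mk.injEq]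
  omega

lemma ltTF_level {u x : T × ℕ} (h : ltTF u x) : x.1.1 ≤ u.1.1 := by
  obtain ⟨⟨a, b⟩, c⟩ := u
  obtain ⟨⟨a', b'⟩, c'⟩ := x
  simp only [ltTF, ltT, Prod.mk.injEq] at h
  simp only
  omega

/-- two elements of `Dl n y` are comparable -/
lemma Dl_clique {n : ℕ} {y : T} {u x : T} (hu : u ∈ Dl n y) (hx : x ∈ Dl n y)
    (hl : x.1 ≤ u.1) : u ∈ Dl n (par^[n] x) := by
  obtain ⟨a, ha, hu⟩ := hu
  obtain ⟨b, hb, hx⟩ := hx
  have h1 : x.1 + b = u.1 + a := by
    have h3 := congrArg Prod.fst hu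
    have h4 := congrArg Prod.fst hx
    rw [par_iter] at h3 h4
    simp only at h3 h4
    omega
  have hab : a ≤ b := by omega
  refine ⟨n - b + a, by omega, ?_⟩
  rw [Function.iterate_add_apply, hu, ← hx, ← Function.iterate_add_apply]
  congr 1
  omega

lemma self_mem_Dl (n : ℕ) (x : T) : x ∈ Dl n x := ⟨0, Nat.zero_le _, rfl⟩

lemma mem_Dl_iter {n i : ℕ} (hi : i ≤ n) (x : T) : x ∈ Dl n (par^[i] x) := ⟨i, hi, rfl⟩

/-! ### cyclic groups -/

/-- elimination structure on `ZMod m`, rooted at `0` -/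
def EZ {m : ℕ} (e g : ZMod m) : Prop :=
  g ≠ 0 ∧ (e = 0 ∨ ((e = g + 1 ∨ e = g - 1) ∧ e.val < g.val))

lemma EZ_val {m : ℕ} {e g : ZMod m} (h : EZ e g) : e.val < g.val := by
  obtain ⟨h0, rfl | h⟩ := h
  · rw [ZMod.val_zero]
    rcases Nat.eq_zero_or_pos g.val with h | h
    · rw [ZMod.val_eq_zero] at h; exact absurd h h0
    · exact h
  · exact h.2

lemma EZ_val_ne {m : ℕ} (hm : m ≠ 1) (u : ZMod m) : (u + 1).val ≠ u.val := by
  rcases m with _ | m
  · intro h
    have h1 : ∀ v : ℤ, Int.natAbs (v + 1) ≠ Int.natAbs v := by intro v; omega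
    exact h1 u h
  · intro h
    have h2 := ZMod.val_injective _ h
    have h3 : (1 : ZMod (m + 1)) = 0 := by
      have : u + 1 = u + 0 := by rw [h2, add_zero]
      exact add_left_cancel this
    have : Subsingleton (ZMod (m + 1)) := subsingleton_of_zero_eq_one h3.symm
    have := ZMod.subsingleton_iff.1 this
    exact hm this

lemma EZ_adj {m : ℕ} (hm : m ≠ 1) (u : ZMod m) : EZ u (1 + u) ∨ EZ (1 + u) u := by
  rw [add_comm]
  rcases lt_or_gt_of_ne (EZ_val_ne hm u) with h | h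
  · right
    refine ⟨?_, Or.inr ⟨Or.inl rfl, h⟩⟩
    rintro rfl
    rw [ZMod.val_zero] at h
    exact absurd h (Nat.not_lt_zero _)
  · left
    refine ⟨?_, Or.inr ⟨Or.inr (by ring), h⟩⟩
    intro h0
    rw [h0, ZMod.val_zero] at h
    exact absurd h (Nat.not_lt_zero _)

lemma EZ_chord {m : ℕ} {e e' g : ZMod m} (h : EZ e g) (h' : EZ e' g) :
    e = e' ∨ EZ e e' ∨ EZ e' e := by
  by_cases h0 : e = 0
  · by_cases h0' : e' = 0
    · left; rw [h0, h0']
    · right; left; exact ⟨h0', Or.inl h0⟩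
  by_cases h0' : e' = 0
  · right; right; exact ⟨h0, Or.inl h0'⟩
  left
  obtain ⟨hg, h | ⟨h, hv⟩⟩ := h
  · exact absurd h h0
  obtain ⟨_, h' | ⟨h', hv'⟩⟩ := h'
  · exact absurd h' h0'
  have key : ¬ ((g + 1).val < g.val ∧ (g - 1).val < g.val ∧ g + 1 ≠ 0) := by
    rcases m with _ | m
    · rintro ⟨h1, h2, h3⟩
      have h4 : ∀ v : ℤ, Int.natAbs (v + 1) < Int.natAbs v → ¬ Int.natAbs (v - 1) < Int.natAbs v := by
        intro v; omega
      exact h4 g h1 h2
    · rintro ⟨h1, _, h3⟩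
      have h4 : g.val < m + 1 := ZMod.val_lt g
      rcases Nat.lt_or_ge g.val m with h5 | h5
      · have h7 : (g + 1).val = g.val + 1 := by
          have h8 : g + 1 = ((g.val + 1 : ℕ) : ZMod (m + 1)) := by
            rw [Nat.cast_add, ZMod.natCast_zmod_val, Nat.cast_one]
          rw [h8, ZMod.val_natCast, Nat.mod_eq_of_lt (by omega)]
        omega
      · apply h3
        have h8 : g + 1 = ((g.val + 1 : ℕ) : ZMod (m + 1)) := by
          rw [Nat.cast_add, ZMod.natCast_zmod_val, Nat.cast_one]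
        have h9 : g.val + 1 = m + 1 := by omega
        rw [h8, h9, ZMod.natCast_self]
  rcases h with rfl | rfl <;> rcases h' with rfl | rfl
  · rfl
  · exact absurd ⟨hv, hv', h0⟩ key
  · exact absurd ⟨hv', hv, h0'⟩ key
  · rfl

lemma EZ_finite {m : ℕ} (g : ZMod m) : {e | EZ e g} ⊆ ({0, g + 1, g - 1} : Set (ZMod m)) := by
  rintro e ⟨_, rfl | ⟨rfl | rfl, _⟩⟩ <;> simp

end Pool.Agent.Hhelper66.Sep
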