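import Mathlib
import Pool.Agent.Hhelper66.Sep.Elim
import Pool.Agent.Hhelper66.Sep.Tree

/-!
The elimination structure on (reduced words in a free product of cyclic groups) × tree.
-/

set_option autoImplicit false
set_option linter.unusedSectionVars false

namespace Pool.Agent.Hhelper66.Sep

open Monoid CoprodI

section

variable {I : Type} [DecidableEq I] (m : I → ℕ)

/-- cyclic groups, written multiplicatively -/
abbrev Cy (i : I) : Type := Multiplicative (ZMod (m i))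

/-- the generator -/
def gen (i : I) : Cy m i := Multiplicative.ofAdd 1

variable {m}

/-- put a letter in front of a list, unless it is trivial -/
def hd (i : I) (e : Cy m i) (l : List (Σ i, Cy m i)) : List (Σ i, Cy m i) :=
  if e = 1 then l else ⟨i, e⟩ :: l

/-- value of the head -/
def headval : List (Σ i, Cy m i) → ℕ
  | [] => 0
  | ⟨_, g⟩ :: _ => (Multiplicative.toAdd g).val

/-- multiplicative version of `EZ` -/
def EM {k : ℕ} (e g : Multiplicative (ZMod k)) : Prop :=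
  EZ (Multiplicative.toAdd e) (Multiplicative.toAdd g)

variable (m) (nd : I → T) (n : ℕ) (P : Type)

/-- vertices of the big chordal graph -/
abbrev VV : Type := P × Word (Cy m) × (T × ℕ)

/-- the elimination relation -/
def EA (u v : VV m P) : Prop :=
  u.1 = v.1 ∧ u.2.2.2 ≤ n ∧
  ((u.2.1 = v.2.1 ∧ u.2.2.1 ∈ Dl n (par^[n] v.2.2.1) ∧ ltTF u.2.2 v.2.2) ∨
   (∃ (i : I) (g e : Cy m i) (l : List (Σ i, Cy m i)),
      v.2.1.toList = ⟨i, g⟩ :: l ∧ u.2.1.toList = hd i e l ∧ EM e g ∧ u.2.2.1 ∈ Dl n (nd i)))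

/-- the rank -/
def rk (v : VV m P) : ℕ ×ₗ ℕ ×ₗ ℤ ×ₗ ℕ ×ₗ ℕ :=
  toLex (v.2.1.toList.length, toLex (headval v.2.1.toList,
    toLex (-(v.2.2.1.1), toLex (v.2.2.1.2, v.2.2.2))))

lemma EA_rk (u v : VV m P) (h : EA m nd n P u v) : rk m P u < rk m P v := by
  obtain ⟨p, w, ⟨k, s⟩, a⟩ := u
  obtain ⟨p', w', ⟨k', s'⟩, a'⟩ := v
  obtain ⟨-, -, ⟨h1, -, h3⟩ | ⟨i, g, e, l, h1, h2, h3, -⟩⟩ := h
  · simp only at h1
    subst h1
    simp only [ltTF, ltT, Prod.mk.injEq] at h3
    simp only [rk, Prod.Lex.toLex_lt_toLex, lt_self_iff_false, true_and, false_or]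
    omega
  · simp only at h1 h2
    simp only [rk, Prod.Lex.toLex_lt_toLex]
    by_cases he : e = 1
    · left
      rw [h1, h2, hd, if_pos he]
      simp
    · right
      refine ⟨?_, Or.inl ?_⟩
      · rw [h1, h2, hd, if_neg he]; simp
      · rw [h1, h2, hd, if_neg he]
        exact EZ_val h3

lemma T_compare {u u' : T × ℕ} {y : T} (hu : u.1 ∈ Dl n y) (hu' : u'.1 ∈ Dl n y) :
    u = u' ∨ (u.1 ∈ Dl n (par^[n] u'.1) ∧ ltTF u u') ∨ (u'.1 ∈ Dl n (par^[n] u.1) ∧ ltTF u' u) := by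
  rcases ltTF_total u u' with h | h | h
  · exact Or.inl h
  · exact Or.inr (Or.inl ⟨Dl_clique hu hu' (ltTF_level h), h⟩)
  · exact Or.inr (Or.inr ⟨Dl_clique hu' hu (ltTF_level h), h⟩)

lemma EA_chordal : Chordal (EA m nd n P) := by
  rintro ⟨p, w, x⟩ ⟨p', w', x'⟩ ⟨q, z, y⟩ ⟨h1, h2, h3⟩ ⟨h1', h2', h3'⟩
  simp only at h1 h2 h3 h1' h2' h3'
  subst h1 h1'
  rcases h3 with ⟨rfl, h4, h5⟩ | ⟨i, g, e, l, h3, h4, h5, h6⟩
  · rcases h3' with ⟨rfl, h4', h5'⟩ | ⟨i, g, e, l, h3', h4', h5', h6'⟩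
    · rcases T_compare n h4 h4' with h | h | h
      · left; rw [h]
      · right; left; exact ⟨rfl, h2, Or.inl ⟨rfl, h⟩⟩
      · right; right; exact ⟨rfl, h2', Or.inl ⟨rfl, h⟩⟩
    · right; right
      exact ⟨rfl, h2', Or.inr ⟨i, g, e, l, h3', h4', h5', h6'⟩⟩
  · rcases h3' with ⟨rfl, h4', h5'⟩ | ⟨i', g', e', l', h3', h4', h5', h6'⟩
    · right; left
      exact ⟨rfl, h2, Or.inr ⟨i, g, e, l, h3, h4, h5, h6⟩⟩
    · rw [h3] at h3'
      simp only [List.cons.injEq, Sigma.mk.injEq] at h3'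
      obtain ⟨⟨rfl, hg⟩, rfl⟩ := h3'
      obtain rfl := eq_of_heq hg
      rcases EZ_chord h5 h5' with h | h | h
      · have h' : e = e' := h
        subst h'
        have hw : w = w' := Word.ext (h4.trans h4'.symm)
        subst hw
        rcases T_compare n h6 h6' with h | h | h
        · left; rw [h]
        · right; left; exact ⟨rfl, h2, Or.inl ⟨rfl, h⟩⟩
        · right; right; exact ⟨rfl, h2', Or.inl ⟨rfl, h⟩⟩
      · right; left
        refine ⟨rfl, h2, Or.inr ⟨i, e', e, l, ?_, h4, h, h6⟩⟩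
        rw [h4', hd, if_neg]
        exact h.1
      · right; right
        refine ⟨rfl, h2', Or.inr ⟨i, e, e', l, ?_, h4', h, h6'⟩⟩
        rw [h4, hd, if_neg]
        exact h.1

lemma ncard_prod_le {α β : Type*} {s : Set α} {t : Set β} {a b : ℕ} (hs : s.Finite) (ht : t.Finite)
    (h1 : s.ncard ≤ a) (h2 : t.ncard ≤ b) : (s ×ˢ t).Finite ∧ (s ×ˢ t).ncard ≤ a * b := by
  refine ⟨hs.prod ht, ?_⟩
  rw [Set.ncard_prod]
  exact Nat.mul_le_mul h1 h2

lemma fin3 {α β : Type} (p : α) {s : Set β} {c : ℕ} (hs : s.Finite) (hc : s.ncard ≤ c) (y : T) :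
    ((({p} : Set α)) ×ˢ (s ×ˢ ((Dl n y) ×ˢ (Set.Iic n)))).Finite ∧
    ((({p} : Set α)) ×ˢ (s ×ˢ ((Dl n y) ×ˢ (Set.Iic n)))).ncard ≤ c * (2 ^ (n + 1) * (n + 1)) := by
  have hI : (Set.Iic n).Finite ∧ (Set.Iic n).ncard ≤ n + 1 := by
    refine ⟨Set.finite_Iic n, ?_⟩
    rw [Set.ncard_eq_toFinset_card' ]
    simp
  have h1 := ncard_prod_le (Dl_finite n y).1 hI.1 (Dl_finite n y).2 hI.2
  have h2 := ncard_prod_le hs h1.1 hc h1.2
  have h3 := ncard_prod_le (Set.finite_singleton p) h2.1 (le_of_eq (Set.ncard_singleton p)) h2.2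
  rwa [one_mul] at h3

lemma EA_fin (v : VV m P) : {u | EA m nd n P u v}.Finite ∧
    {u | EA m nd n P u v}.ncard ≤ 4 * ((n + 1) * 2 ^ (n + 1)) := by
  obtain ⟨p, w, x⟩ := v
  -- part one
  have hS1 := fin3 n p (Set.finite_singleton w) (le_of_eq (Set.ncard_singleton w)) (par^[n] x.1)
  set S1 := (({p} : Set P)) ×ˢ (({w} : Set (Word (Cy m))) ×ˢ
      ((Dl n (par^[n] x.1)) ×ˢ (Set.Iic n))) with hS1def
  rcases hw : w.toList with _ | ⟨⟨i, g⟩, l⟩
  · have hsub : {u | EA m nd n P u (p, w, x)} ⊆ S1 := by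
      rintro ⟨p', w', x'⟩ ⟨h1, h2, h3 | ⟨i, g, e, l, h3, _⟩⟩
      · simp only at h1 h2 h3
        rw [hS1def]
        simp only [Set.mem_prod, Set.mem_singleton_iff, Set.mem_Iic]
        exact ⟨h1, h3.1, h3.2.1, h2⟩
      · simp only at h3
        rw [hw] at h3
        exact absurd h3 (by simp)
    refine ⟨hS1.1.subset hsub, (Set.ncard_le_ncard hsub hS1.1).trans (hS1.2.trans ?_)⟩
    nlinarith [Nat.zero_le ((n + 1) * 2 ^ (n + 1))]
  · let Wset : Set (Word (Cy m)) := {z | ∃ e, EM e g ∧ z.toList = hd i e l}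
    have hE : {e : Cy m i | EM e g}.Finite ∧ {e : Cy m i | EM e g}.ncard ≤ 3 := by
      have hsub : {e : Cy m i | EM e g} ⊆ ({Multiplicative.ofAdd 0,
          Multiplicative.ofAdd (Multiplicative.toAdd g + 1),
          Multiplicative.ofAdd (Multiplicative.toAdd g - 1)} : Set (Cy m i)) := by
        intro e he
        exact EZ_finite _ he
      refine ⟨(Set.toFinite _).subset hsub, (Set.ncard_le_ncard hsub (Set.toFinite _)).trans ?_⟩
      refine (Set.ncard_insert_le _ _).trans ?_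
      refine Nat.add_le_add_right ((Set.ncard_insert_le _ _).trans ?_) 1
      rw [Set.ncard_singleton]
    have hW : Wset.Finite ∧ Wset.ncard ≤ 3 := by
      classical
      have hsub : Wset ⊆ (fun e : Cy m i => if h : ∃ z : Word (Cy m), z.toList = hd i e l then
          h.choose else Word.empty) '' {e : Cy m i | EM e g} := by
        rintro z ⟨e, he, hz⟩
        refine ⟨e, he, ?_⟩
        have h : ∃ z : Word (Cy m), z.toList = hd i e l := ⟨z, hz⟩
        simp only [dif_pos h]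
        exact Word.ext (h.choose_spec.trans hz.symm)
      refine ⟨(hE.1.image _).subset hsub, (Set.ncard_le_ncard hsub (hE.1.image _)).trans ?_⟩
      exact (Set.ncard_image_le hE.1).trans hE.2
    have hS2 := fin3 n p hW.1 hW.2 (nd i)
    set S2 := (({p} : Set P)) ×ˢ (Wset ×ˢ ((Dl n (nd i)) ×ˢ (Set.Iic n))) with hS2def
    have hsub : {u | EA m nd n P u (p, w, x)} ⊆ S1 ∪ S2 := by
      rintro ⟨p', w', x'⟩ ⟨h1, h2, h3 | ⟨i', g', e, l', h3, h4, h5, h6⟩⟩
      · left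
        simp only at h1 h2 h3
        rw [hS1def]
        simp only [Set.mem_prod, Set.mem_singleton_iff, Set.mem_Iic]
        exact ⟨h1, h3.1, h3.2.1, h2⟩
      · right
        simp only at h1 h2 h3 h4 h6
        rw [hw] at h3
        simp only [List.cons.injEq, Sigma.mk.injEq] at h3
        obtain ⟨⟨rfl, hg⟩, rfl⟩ := h3
        obtain rfl := eq_of_heq hg
        rw [hS2def]
        simp only [Set.mem_prod, Set.mem_singleton_iff, Set.mem_Iic]
        exact ⟨h1, ⟨e, h5, h4⟩, h6, h2⟩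
    refine ⟨(hS1.1.union hS2.1).subset hsub, (Set.ncard_le_ncard hsub (hS1.1.union hS2.1)).trans
      ((Set.ncard_union_le _ _).trans ?_)⟩
    calc S1.ncard + S2.ncard ≤ 1 * (2 ^ (n + 1) * (n + 1)) + 3 * (2 ^ (n + 1) * (n + 1)) :=
          Nat.add_le_add hS1.2 hS2.2
      _ = 4 * ((n + 1) * 2 ^ (n + 1)) := by ring

lemma toList_rcons {i : I} (p : Word.Pair (Cy m) i) :
    (Word.rcons p).toList = hd i p.head p.tail.toList := by
  unfold Word.rcons hd
  split_ifs with h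
  · rfl
  · rfl

lemma EA_step {i : I} (hi : m i ≠ 1) (p : P) (w : Word (Cy m)) (x : T) (hx : x ∈ Dl n (nd i))
    {a b : ℕ} (ha : a ≤ n) (hb : b ≤ n) :
    Adj' (EA m nd n P) (p, w, (x, a)) (p, (of (gen m i) : CoprodI (Cy m)) • w, (x, b)) := by
  set pr := Word.equivPair i w with hpr
  have hw : w = Word.rcons pr := by
    rw [hpr, ← Word.equivPair_symm, Equiv.symm_apply_apply]
  have hw1 : w.toList = hd i pr.head pr.tail.toList := by
    conv_lhs => rw [hw]
    exact toList_rcons m pr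
  have hw2 : ((of (gen m i) : CoprodI (Cy m)) • w).toList =
      hd i (gen m i * pr.head) pr.tail.toList := by
    rw [Word.of_smul_def, toList_rcons]
  rcases EZ_adj hi (Multiplicative.toAdd pr.head) with h | h
  · left
    refine ⟨rfl, ha, Or.inr ⟨i, gen m i * pr.head, pr.head, pr.tail.toList, ?_, hw1, h, hx⟩⟩
    rw [hw2, hd, if_neg]
    exact h.1
  · right
    refine ⟨rfl, hb, Or.inr ⟨i, pr.head, gen m i * pr.head, pr.tail.toList, ?_, hw2, h, hx⟩⟩
    rw [hw1, hd, if_neg]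
    exact h.1

lemma EA_tree (p : P) (w : Word (Cy m)) (hn : 1 ≤ n) (x : T) :
    Adj' (EA m nd n P) (p, w, (x, 0)) (p, w, (par x, 0)) := by
  have h1 : x ∈ Dl n (par x) := ⟨1, hn, rfl⟩
  have h2 : par x ∈ Dl n (par x) := self_mem_Dl _ _
  rcases T_compare n (u := (x, 0)) (u' := (par x, 0)) h1 h2 with h | h | h
  · exfalso
    have := congrArg (fun z => z.1.1) h
    simp only [par] at this
    omega
  · left; exact ⟨rfl, Nat.zero_le _, Or.inl ⟨rfl, h⟩⟩
  · right; exact ⟨rfl, Nat.zero_le _, Or.inl ⟨rfl, h⟩⟩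

end

end Pool.Agent.Hhelper66.Sep
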