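import Mathlib
import Pool.Agent.Hhelper66.Sep.Words

/-!
The approximating groups `Wd m` (free products of cyclic groups) and their homomorphisms.
-/

set_option autoImplicit false
set_option linter.unusedSectionVars false

namespace Pool.Agent.Hhelper66.Sep

open Monoid CoprodI

/-! ### homomorphisms out of cyclic groups -/

/-- the homomorphism from a cyclic group sending the generator to `e` -/
def cyHom {N : Type} [Group N] (k : ℕ) (e : N) (he : e ^ k = 1) : Multiplicative (ZMod k) →* N :=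
  AddMonoidHom.toMultiplicativeLeft
    (ZMod.lift k ⟨zmultiplesHom (Additive N) (Additive.ofMul e), by
      rw [zmultiplesHom_apply, natCast_zsmul, ← ofMul_pow, he, ofMul_one]⟩)

lemma cyHom_apply {N : Type} [Group N] (k : ℕ) (e : N) (he : e ^ k = 1) (a : ℤ) :
    cyHom k e he (Multiplicative.ofAdd (a : ZMod k)) = e ^ a := by
  simp only [cyHom, AddMonoidHom.coe_toMultiplicativeLeft, Function.comp, toAdd_ofAdd,
    ZMod.lift_coe, zmultiplesHom_apply]
  rw [← ofMul_zpow, toMul_ofMul]

lemma cyHom_gen {N : Type} [Group N] (k : ℕ) (e : N) (he : e ^ k = 1) :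
    cyHom k e he (Multiplicative.ofAdd (1 : ZMod k)) = e := by
  have := cyHom_apply k e he 1
  rwa [Int.cast_one, zpow_one] at this

lemma cy_eq_zpow {k : ℕ} (h : Multiplicative (ZMod k)) :
    ∃ a : ℤ, h = Multiplicative.ofAdd (a : ZMod k) := by
  obtain ⟨a, ha⟩ := ZMod.intCast_surjective (Multiplicative.toAdd h)
  exact ⟨a, by rw [ha, ofAdd_toAdd]⟩

lemma cy_ext {N : Type} [Group N] {k : ℕ} (f f' : Multiplicative (ZMod k) →* N)
    (h : f (Multiplicative.ofAdd 1) = f' (Multiplicative.ofAdd 1)) : f = f' := by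
  refine MonoidHom.ext fun x => ?_
  obtain ⟨a, rfl⟩ := cy_eq_zpow x
  have : Multiplicative.ofAdd (a : ZMod k) = (Multiplicative.ofAdd (1 : ZMod k)) ^ a := by
    rw [← ofAdd_zsmul]; simp
  rw [this, map_zpow, map_zpow, h]

/-! ### the groups -/

/-- the orders, as a function of the index in `T × ℕ` -/
abbrev ord (m : ℕ → ℕ) : T × ℕ → ℕ := fun i => m i.2

/-- the free product of the cyclic groups of order `m j`, one for each `(y, j)` -/
abbrev Wd (m : ℕ → ℕ) : Type := CoprodI (Cy (ord m))

/-- the generators of `Wd m` -/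
def g (m : ℕ → ℕ) (y : T) (j : ℕ) : Wd m := of (gen (ord m) (y, j))

lemma g_pow (m : ℕ → ℕ) (y : T) (j : ℕ) : g m y j ^ m j = 1 := by
  unfold g
  rw [← map_pow]
  have : gen (ord m) (y, j) ^ m j = 1 := by
    unfold gen
    rw [← ofAdd_nsmul]
    simp
  rw [this, map_one]

/-- universal property -/
def lft {N : Type} [Group N] (m : ℕ → ℕ) (e : T → ℕ → N) (h : ∀ y j, e y j ^ m j = 1) :
    Wd m →* N :=
  lift fun i => cyHom (m i.2) (e i.1 i.2) (h i.1 i.2)

lemma lft_g {N : Type} [Group N] (m : ℕ → ℕ) (e : T → ℕ → N) (h : ∀ y j, e y j ^ m j = 1)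
    (y : T) (j : ℕ) : lft m e h (g m y j) = e y j := by
  unfold lft g
  rw [lift_of]
  exact cyHom_gen _ _ _

lemma Wd_ext {N : Type} [Group N] {m : ℕ → ℕ} (f f' : Wd m →* N)
    (h : ∀ y j, f (g m y j) = f' (g m y j)) : f = f' := by
  apply CoprodI.ext_hom
  intro i
  apply cy_ext
  exact h i.1 i.2

/-- the sign of a vertex of the tree -/
def sz (x : T) : ℤ := if x.2 % 2 = 0 then 1 else -1

lemma sz_eq (x : T) : sz x = 1 ∨ sz x = -1 := by
  unfold sz; split_ifs <;> simp

/-- partial products -/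
def pp (m : ℕ → ℕ) (x : T) : ℕ → Wd m
  | 0 => 1
  | i + 1 => g m (par^[i + 1] x) (i + 1) ^ sz (par^[i] x) * pp m x i

/-- the image of the generator `a_x` at stage `n` -/
def Ax (m : ℕ → ℕ) (n : ℕ) (x : T) : Wd m := g m (par^[n] x) 0 * pp m x n

variable (r : ℕ → ℕ)

/-- orders at stage `n` -/
def o (n : ℕ) (j : ℕ) : ℕ := if j = 0 then 0 else if j ≤ n then r j else 1

lemma o_zero (n : ℕ) : o r n 0 = 0 := if_pos rfl

lemma o_le {n j : ℕ} (h0 : j ≠ 0) (h : j ≤ n) : o r n j = r j := by
  unfold o; rw [if_neg h0, if_pos h]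

lemma o_gt {n j : ℕ} (h : n < j) : o r n j = 1 := by
  unfold o; rw [if_neg (by omega), if_neg (by omega)]

/-- the homomorphism from the free group at stage `n` -/
def th (n : ℕ) : FreeGroup T →* Wd (o r n) := FreeGroup.lift (Ax (o r n) n)

lemma th_of (n : ℕ) (x : T) : th r n (FreeGroup.of x) = Ax (o r n) n x := by
  unfold th; rw [FreeGroup.lift_apply_of]

lemma g_pow_le {n j : ℕ} (h0 : j ≠ 0) (h : j ≤ n) (y : T) : g (o r n) y j ^ r j = 1 := by
  have := g_pow (o r n) y j
  rwa [o_le r h0 h] at this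

lemma g_gt {n j : ℕ} (h : n < j) (y : T) : g (o r n) y j = 1 := by
  have := g_pow (o r n) y j
  rwa [o_gt r h, pow_one] at this

/-- the connecting homomorphism -/
def kap (n : ℕ) : Wd (o r n) →* Wd (o r (n + 1)) :=
  lft (o r n) (fun y j => if j = 0 then
      g (o r (n + 1)) (par y) 0 * g (o r (n + 1)) (par y) (n + 1) ^ sz y
    else if j ≤ n then g (o r (n + 1)) y j else 1) (by
    intro y j
    split_ifs with h h'
    · subst h; rw [o_zero, pow_zero]
    · rw [o_le r h h']; exact g_pow_le r h (by omega) y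
    · rw [one_pow])

lemma kap_zero (n : ℕ) (y : T) : kap r n (g (o r n) y 0) =
    g (o r (n + 1)) (par y) 0 * g (o r (n + 1)) (par y) (n + 1) ^ sz y := by
  unfold kap; rw [lft_g]; simp

lemma kap_le {n j : ℕ} (h0 : j ≠ 0) (h : j ≤ n) (y : T) : kap r n (g (o r n) y j) =
    g (o r (n + 1)) y j := by
  unfold kap; rw [lft_g]; simp [h0, h]

/-- homomorphisms compatible with the low level generators are compatible with `pp` -/
lemma map_pp {m m' : ℕ → ℕ} (f : Wd m →* Wd m') {n : ℕ}
    (h : ∀ y j, j ≠ 0 → j ≤ n → f (g m y j) = g m' y j) (x : T) :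
    ∀ i ≤ n, f (pp m x i) = pp m' x i := by
  intro i
  induction i with
  | zero => intro _; simp [pp]
  | succ i ih =>
    intro hi
    simp only [pp, map_mul, map_zpow]
    rw [ih (by omega), h _ _ (by omega) hi]

lemma kap_Ax (n : ℕ) (x : T) : kap r n (Ax (o r n) n x) = Ax (o r (n + 1)) (n + 1) x := by
  unfold Ax
  rw [map_mul, kap_zero, map_pp (kap r n) (fun y j h0 h => kap_le r h0 h y) x n le_rfl]
  simp only [pp, Function.iterate_succ_apply', mul_assoc]

lemma kap_th (n : ℕ) : (kap r n).comp (th r n) = th r (n + 1) := by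
  ext x
  simp only [MonoidHom.comp_apply, th_of, kap_Ax]

lemma kap_th_apply (n : ℕ) (w : FreeGroup T) : kap r n (th r n w) = th r (n + 1) w := by
  rw [← kap_th]; rfl

/-! ### injectivity on short words -/

/-- orders with level `n + 1` infinite -/
def oI (n : ℕ) (j : ℕ) : ℕ := if j = n + 1 then 0 else o r n j

lemma oI_zero (n : ℕ) : oI r n 0 = 0 := by unfold oI; rw [if_neg (by omega), o_zero]

lemma oI_succ (n : ℕ) : oI r n (n + 1) = 0 := if_pos rfl

lemma oI_ne {n j : ℕ} (h : j ≠ n + 1) : oI r n j = o r n j := if_neg h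

lemma gI_pow_le {n j : ℕ} (h0 : j ≠ 0) (h : j ≤ n) (y : T) : g (oI r n) y j ^ r j = 1 := by
  have := g_pow (oI r n) y j
  rwa [oI_ne r (by omega), o_le r h0 h] at this

/-- left child -/
def ch0 (z : T) : T := (z.1 - 1, 2 * z.2)
/-- right child -/
def ch1 (z : T) : T := (z.1 - 1, 2 * z.2 + 1)

lemma par_ch0 (z : T) : par (ch0 z) = z := by
  unfold par ch0; ext <;> simp
lemma par_ch1 (z : T) : par (ch1 z) = z := by
  unfold par ch1
  ext
  · simp
  · simp only; omega

lemma ch0_par {y : T} (h : y.2 % 2 = 0) : ch0 (par y) = y := by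
  unfold par ch0
  ext
  · simp
  · simp only; omega
lemma ch1_par {y : T} (h : ¬ y.2 % 2 = 0) : ch1 (par y) = y := by
  unfold par ch1
  ext
  · simp
  · simp only; omega

lemma sz_ch0 (z : T) : sz (ch0 z) = 1 := by unfold sz ch0; simp
lemma sz_ch1 (z : T) : sz (ch1 z) = -1 := by unfold sz ch1; simp [Nat.add_mod]

/-- change of basis -/
def iot (n : ℕ) : Wd (o r n) →* Wd (oI r n) :=
  lft (o r n) (fun y j => if j = 0 then
      g (oI r n) (par y) 0 * (if y.2 % 2 = 0 then g (oI r n) (par y) (n + 1) else 1)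
    else if j ≤ n then g (oI r n) y j else 1) (by
    intro y j
    split_ifs with h h' h'
    · subst h; rw [o_zero, pow_zero]
    · subst h; rw [o_zero, pow_zero]
    · rw [o_le r h h']; exact gI_pow_le r h (by omega) y
    · rw [one_pow])

/-- inverse change of basis -/
def iot' (n : ℕ) : Wd (oI r n) →* Wd (o r n) :=
  lft (oI r n) (fun z j => if j = 0 then g (o r n) (ch1 z) 0
    else if j ≤ n then g (o r n) z j
    else if j = n + 1 then (g (o r n) (ch1 z) 0)⁻¹ * g (o r n) (ch0 z) 0 else 1) (by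
    intro y j
    split_ifs with h h' h'
    · subst h; rw [oI_zero, pow_zero]
    · rw [oI_ne r (by omega), o_le r h h']; exact g_pow_le r h (by omega) y
    · subst h'; rw [oI_succ, pow_zero]
    · rw [one_pow])

lemma iot'_iot (n : ℕ) (w : Wd (o r n)) : iot' r n (iot r n w) = w := by
  have : (iot' r n).comp (iot r n) = MonoidHom.id _ := by
    apply Wd_ext
    intro y j
    simp only [MonoidHom.comp_apply, MonoidHom.id_apply]
    rcases Nat.eq_zero_or_pos j with rfl | hj
    · unfold iot
      rw [lft_g]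
      simp only [if_true]
      rw [map_mul]
      have h1 : iot' r n (g (oI r n) (par y) 0) = g (o r n) (ch1 (par y)) 0 := by
        unfold iot'; rw [lft_g]; simp
      rw [h1]
      split_ifs with h
      · have h2 : iot' r n (g (oI r n) (par y) (n + 1)) =
            (g (o r n) (ch1 (par y)) 0)⁻¹ * g (o r n) (ch0 (par y)) 0 := by
          unfold iot'; rw [lft_g]; simp
        rw [h2, ch0_par h, mul_inv_cancel_left]
      · rw [ch1_par h, map_one, mul_one]
    · by_cases h : j ≤ n
      · have h1 : iot r n (g (o r n) y j) = g (oI r n) y j := by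
          unfold iot; rw [lft_g]; simp [hj.ne', h]
        rw [h1]
        unfold iot'
        rw [lft_g]
        simp [hj.ne', h]
      · rw [g_gt r (by omega), map_one, map_one]
  exact DFunLike.congr_fun this w

lemma psi_aux (n : ℕ) (i : T × ℕ) :
    (gen (ord (o r (n + 1))) i ^ (if i.2 = n + 1 then 2 else 1)) ^ (oI r n i.2) = 1 := by
  by_cases h : i.2 = n + 1
  · rw [h, oI_succ, pow_zero]
  · rw [if_neg h, pow_one]
    have h1 : oI r n i.2 = o r (n + 1) i.2 := by
      rw [oI_ne r h]
      unfold o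
      by_cases h0 : i.2 = 0
      · rw [if_pos h0, if_pos h0]
      · rw [if_neg h0, if_neg h0]
        by_cases h2 : i.2 ≤ n
        · rw [if_pos h2, if_pos (by omega)]
        · rw [if_neg h2, if_neg (by omega)]
    rw [h1]
    unfold gen
    rw [← ofAdd_nsmul]
    simp [ord]

/-- the factorwise homomorphisms -/
def psiF (n : ℕ) (i : T × ℕ) : Cy (ord (oI r n)) i →* Cy (ord (o r (n + 1))) i :=
  cyHom (oI r n i.2) (gen (ord (o r (n + 1))) i ^ (if i.2 = n + 1 then 2 else 1)) (psi_aux r n i)

lemma psiF_gen (n : ℕ) (i : T × ℕ) : psiF r n i (gen (ord (oI r n)) i) =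
    gen (ord (o r (n + 1))) i ^ (if i.2 = n + 1 then 2 else 1) := cyHom_gen _ _ _

/-- factorwise homomorphism of the free products -/
def mapF {m m' : ℕ → ℕ} (f : ∀ i, Cy (ord m) i →* Cy (ord m') i) : Wd m →* Wd m' :=
  lift fun i => of.comp (f i)

lemma mapF_g {m m' : ℕ → ℕ} (f : ∀ i, Cy (ord m) i →* Cy (ord m') i) (y : T) (j : ℕ) :
    mapF f (g m y j) = of (f (y, j) (gen (ord m) (y, j))) := by
  unfold mapF g
  rw [lift_of]
  rfl

lemma mapF_prod {m m' : ℕ → ℕ} (f : ∀ i, Cy (ord m) i →* Cy (ord m') i)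
    (w : Word (Cy (ord m))) (hw : ∀ l ∈ w.toList, f l.1 l.2 ≠ 1)
    (h1 : mapF f w.prod = 1) : w = Word.empty := by
  let w' : Word (Cy (ord m')) :=
    { toList := w.toList.map fun l => ⟨l.1, f l.1 l.2⟩
      ne_one := by
        intro l hl
        rw [List.mem_map] at hl
        obtain ⟨l', hl', rfl⟩ := hl
        exact hw l' hl'
      chain_ne := by
        rw [List.isChain_map]
        exact w.chain_ne }
  have h2 : w'.prod = mapF f w.prod := by
    unfold Word.prod
    rw [map_list_prod, List.map_map]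
    simp only [List.map_map]
    apply congrArg
    apply List.map_congr_left
    intro l _
    simp only [Function.comp, mapF, lift_of, MonoidHom.comp_apply]
  rw [h1] at h2
  have h3 : w' = Word.empty := by
    have : Word.equiv.symm w' = Word.equiv.symm Word.empty := by
      change w'.prod = Word.empty.prod
      rw [h2, Word.prod_empty]
    exact Word.equiv.symm.injective this
  have h4 : w'.toList = [] := by rw [h3]; rfl
  simp only [w', List.map_eq_nil_iff] at h4
  exact Word.ext h4

/-- `alpha` -/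
def alp (n : ℕ) (s : ℤ) : Wd (o r (n + 1)) →* Wd (o r (n + 1)) :=
  lft (o r (n + 1)) (fun z j => if j = 0 then
      g (o r (n + 1)) z 0 * g (o r (n + 1)) z (n + 1) ^ s else g (o r (n + 1)) z j) (by
    intro y j
    split_ifs with h
    · subst h; rw [o_zero, pow_zero]
    · exact g_pow _ _ _)

lemma alp_zero (n : ℕ) (s : ℤ) (z : T) : alp r n s (g (o r (n + 1)) z 0) =
    g (o r (n + 1)) z 0 * g (o r (n + 1)) z (n + 1) ^ s := by
  unfold alp; rw [lft_g]; simp

lemma alp_ne (n : ℕ) (s : ℤ) (z : T) {j : ℕ} (hj : j ≠ 0) : alp r n s (g (o r (n + 1)) z j) =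
    g (o r (n + 1)) z j := by
  unfold alp; rw [lft_g]; simp [hj]

lemma alp_alp (n : ℕ) (w : Wd (o r (n + 1))) : alp r n 1 (alp r n (-1) w) = w := by
  have : (alp r n 1).comp (alp r n (-1)) = MonoidHom.id _ := by
    apply Wd_ext
    intro y j
    simp only [MonoidHom.comp_apply, MonoidHom.id_apply]
    rcases Nat.eq_zero_or_pos j with rfl | hj
    · rw [alp_zero, map_mul, map_zpow, alp_zero, alp_ne r n _ _ (Nat.succ_ne_zero n)]
      simp
    · rw [alp_ne r n _ _ hj.ne', alp_ne r n _ _ hj.ne']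
  exact DFunLike.congr_fun this w

lemma kap_factor (n : ℕ) : kap r n = ((alp r n (-1)).comp (mapF (psiF r n))).comp (iot r n) := by
  apply Wd_ext
  intro y j
  simp only [MonoidHom.comp_apply]
  have hps0 : ∀ z : T, mapF (psiF r n) (g (oI r n) z 0) = g (o r (n + 1)) z 0 := by
    intro z
    rw [mapF_g, psiF_gen, if_neg (by simp), pow_one]
    rfl
  have hpsn : ∀ z : T, mapF (psiF r n) (g (oI r n) z (n + 1)) = g (o r (n + 1)) z (n + 1) ^ 2 := by
    intro z
    rw [mapF_g, psiF_gen, if_pos rfl, map_pow]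
    rfl
  have hpsj : ∀ (z : T) (j : ℕ), j ≠ n + 1 →
      mapF (psiF r n) (g (oI r n) z j) = g (o r (n + 1)) z j := by
    intro z j hj
    rw [mapF_g, psiF_gen, if_neg hj, pow_one]
    rfl
  rcases Nat.eq_zero_or_pos j with rfl | hj
  · rw [kap_zero]
    have h1 : iot r n (g (o r n) y 0) = g (oI r n) (par y) 0 *
        (if y.2 % 2 = 0 then g (oI r n) (par y) (n + 1) else 1) := by
      unfold iot; rw [lft_g]; simp
    rw [h1, map_mul, map_mul, hps0, alp_zero, mul_assoc]
    congr 1
    unfold sz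
    split_ifs with h
    · rw [hpsn, map_pow, alp_ne r n _ _ (Nat.succ_ne_zero n)]
      group
    · simp
  · by_cases h : j ≤ n
    · rw [kap_le r hj.ne' h]
      have h1 : iot r n (g (o r n) y j) = g (oI r n) y j := by
        unfold iot; rw [lft_g]; simp [hj.ne', h]
      rw [h1, hpsj _ _ (by omega), alp_ne r n _ _ hj.ne']
    · rw [g_gt r (by omega), map_one, map_one, map_one, map_one]

end Pool.Agent.Hhelper66.Sep
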