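import Mathlib
import Pool.Agent.Hhelper66.Sep.Groups

/-!
Short words that die at some stage already died before.
-/

set_option autoImplicit false
set_option linter.unusedSectionVars false

namespace Pool.Agent.Hhelper66.Sep

open Monoid CoprodI

variable (r : ℕ → ℕ) (n : ℕ)

/-- cost of a letter: its exponent if it is of level `n + 1` -/
def cst (l : Σ i, Cy (ord (oI r n)) i) : ℕ :=
  if l.1.2 = n + 1 then (Multiplicative.toAdd l.2).val else 0

/-- total cost of a word -/
def Nm (w : Word (Cy (ord (oI r n)))) : ℕ := (w.toList.map (cst r n)).sum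

/-- multiplication by `u` increases the cost by at most `k` -/
def Bd (u : Wd (oI r n)) (k : ℕ) : Prop := ∀ z : Word (Cy (ord (oI r n))), Nm r n (u • z) ≤ k + Nm r n z

lemma Bd_one : Bd r n 1 0 := by
  intro z; rw [one_smul, zero_add]

lemma Bd_mul {u v : Wd (oI r n)} {k l : ℕ} (hu : Bd r n u k) (hv : Bd r n v l) :
    Bd r n (u * v) (k + l) := by
  intro z
  rw [mul_smul]
  have h1 := hu (v • z)
  have h2 := hv z
  omega

lemma Nm_rcons {i : T × ℕ} (p : Word.Pair (Cy (ord (oI r n))) i) :
    Nm r n (Word.rcons p) = cst r n ⟨i, p.head⟩ + Nm r n p.tail := by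
  unfold Nm
  rw [toList_rcons, hd]
  split_ifs with h
  · rw [h]
    unfold cst
    simp
  · simp

lemma Bd_of {i : T × ℕ} (h : Cy (ord (oI r n)) i) : Bd r n (of h) (cst r n ⟨i, h⟩) := by
  intro z
  set pr := Word.equivPair i z with hpr
  have hz : z = Word.rcons pr := by
    rw [hpr, ← Word.equivPair_symm, Equiv.symm_apply_apply]
  have h1 : Nm r n z = cst r n ⟨i, pr.head⟩ + Nm r n pr.tail := by
    conv_lhs => rw [hz]
    exact Nm_rcons r n pr
  have h2 : Nm r n ((of h : Wd (oI r n)) • z) = cst r n ⟨i, h * pr.head⟩ + Nm r n pr.tail := by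
    rw [Word.of_smul_def, Nm_rcons]
  have h3 : cst r n ⟨i, h * pr.head⟩ ≤ cst r n ⟨i, h⟩ + cst r n ⟨i, pr.head⟩ := by
    unfold cst
    simp only
    split_ifs with hi
    · rw [toAdd_mul]
      exact ZMod.val_add_le _ _
    · omega
  omega

lemma Bd_g {y : T} {j : ℕ} (hj : j ≠ n + 1) (s : ℤ) : Bd r n (g (oI r n) y j ^ s) 0 := by
  unfold g
  rw [← map_zpow]
  have := Bd_of r n (i := (y, j)) (gen (ord (oI r n)) (y, j) ^ s)
  have h0 : cst r n ⟨(y, j), gen (ord (oI r n)) (y, j) ^ s⟩ = 0 := by
    unfold cst; rw [if_neg hj]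
  rwa [h0] at this

lemma val_one_zero {k : ℕ} (hk : k = 0) : (1 : ZMod k).val = 1 ∧ (-1 : ZMod k).val = 1 := by
  subst hk
  exact ⟨rfl, rfl⟩

lemma Bd_gs {y : T} {s : ℤ} (hs : s = 1 ∨ s = -1) : Bd r n (g (oI r n) y (n + 1) ^ s) 1 := by
  unfold g
  rw [← map_zpow]
  have := Bd_of r n (i := (y, n + 1)) (gen (ord (oI r n)) (y, n + 1) ^ s)
  have h0 : cst r n ⟨(y, n + 1), gen (ord (oI r n)) (y, n + 1) ^ s⟩ = 1 := by
    unfold cst; rw [if_pos rfl]
    unfold gen
    rw [← ofAdd_zsmul, toAdd_ofAdd]
    have hk : (ord (oI r n) (y, n + 1)) = 0 := oI_succ r n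
    rcases hs with rfl | rfl
    · rw [one_zsmul]; exact (val_one_zero hk).1
    · rw [neg_one_zsmul]; exact (val_one_zero hk).2
  rwa [h0] at this

lemma Bd_pp (x : T) : ∀ i ≤ n, Bd r n (pp (oI r n) x i) 0 ∧ Bd r n (pp (oI r n) x i)⁻¹ 0 := by
  intro i
  induction i with
  | zero => intro _; simp only [pp, inv_one]; exact ⟨Bd_one r n, Bd_one r n⟩
  | succ i ih =>
    intro hi
    have h1 := ih (by omega)
    simp only [pp, mul_inv_rev, ← zpow_neg]
    exact ⟨Bd_mul r n (Bd_g r n (by omega) _) h1.1, Bd_mul r n h1.2 (Bd_g r n (by omega) _)⟩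

lemma iot_zero (y : T) : iot r n (g (o r n) y 0) = g (oI r n) (par y) 0 *
        (if y.2 % 2 = 0 then g (oI r n) (par y) (n + 1) else 1) := by
      unfold iot; rw [lft_g]; simp

lemma iot_le {j : ℕ} (h0 : j ≠ 0) (h : j ≤ n) (y : T) : iot r n (g (o r n) y j) = g (oI r n) y j := by
  unfold iot; rw [lft_g]; simp [h0, h]

lemma Bd_Ax (x : T) : Bd r n (iot r n (Ax (o r n) n x)) 1 ∧ Bd r n (iot r n (Ax (o r n) n x))⁻¹ 1 := by
  have h1 : iot r n (Ax (o r n) n x) = (g (oI r n) (par (par^[n] x)) 0 *
        (if (par^[n] x).2 % 2 = 0 then g (oI r n) (par (par^[n] x)) (n + 1) else 1)) *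
        pp (oI r n) x n := by
    unfold Ax
    rw [map_mul, iot_zero, map_pp (iot r n) (fun y j h0 h => iot_le r n h0 h y) x n le_rfl]
  have h2 : ∀ c : Prop, ∀ [Decidable c], ∀ y : T,
      Bd r n (if c then g (oI r n) y (n + 1) else 1) 1 ∧
      Bd r n (if c then g (oI r n) y (n + 1) else 1)⁻¹ 1 := by
    intro c _ y
    split_ifs
    · have h3 := Bd_gs r n (y := y) (s := 1) (Or.inl rfl)
      have h4 := Bd_gs r n (y := y) (s := -1) (Or.inr rfl)
      rw [zpow_one] at h3
      rw [zpow_neg_one] at h4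
      exact ⟨h3, h4⟩
    · rw [inv_one]
      refine ⟨fun z => ?_, fun z => ?_⟩ <;> rw [one_smul] <;> omega
  have h5 := h2 ((par^[n] x).2 % 2 = 0) (par (par^[n] x))
  have h3 : Bd r n (g (oI r n) (par (par^[n] x)) 0) 0 := by
    have := Bd_g r n (y := par (par^[n] x)) (j := 0) (by omega) 1
    rwa [zpow_one] at this
  have h4 : Bd r n (g (oI r n) (par (par^[n] x)) 0)⁻¹ 0 := by
    have := Bd_g r n (y := par (par^[n] x)) (j := 0) (by omega) (-1)
    rwa [zpow_neg_one] at this
  have h6 := Bd_pp r n x n le_rfl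
  rw [h1]
  constructor
  · exact Bd_mul r n (Bd_mul r n h3 h5.1) h6.1
  · rw [mul_inv_rev, mul_inv_rev]
    exact Bd_mul r n h6.2 (Bd_mul r n h5.2 h4)

lemma Bd_word (L : List (T × Bool)) : Bd r n (iot r n (th r n (FreeGroup.mk L))) L.length := by
  induction L with
  | nil =>
    have : (FreeGroup.mk ([] : List (T × Bool))) = 1 := rfl
    rw [this, map_one, map_one]
    exact Bd_one r n
  | cons a L ih =>
    obtain ⟨x, b⟩ := a
    have h1 : FreeGroup.mk ((x, b) :: L) = FreeGroup.mk [(x, b)] * FreeGroup.mk L := by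
      rw [FreeGroup.mul_mk]; rfl
    rw [h1, map_mul, map_mul, List.length_cons, add_comm]
    refine Bd_mul r n ?_ ih
    cases b
    · have h2 : FreeGroup.mk [(x, false)] = (FreeGroup.of x)⁻¹ := by
        rw [FreeGroup.of, FreeGroup.inv_mk]; rfl
      rw [h2, map_inv, map_inv, th_of]
      exact (Bd_Ax r n x).2
    · have h2 : FreeGroup.mk [(x, true)] = FreeGroup.of x := rfl
      rw [h2, th_of]
      exact (Bd_Ax r n x).1

lemma Bd_norm (w : FreeGroup T) : Bd r n (iot r n (th r n w)) w.norm := by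
  have := Bd_word r n w.toWord
  rwa [FreeGroup.mk_toWord] at this

/-- injectivity on short words, one step -/
lemma th_short (hodd : Odd (r (n + 1))) {w : FreeGroup T} (hw : w.norm < r (n + 1))
    (h : th r (n + 1) w = 1) : th r n w = 1 := by
  rw [← kap_th_apply, kap_factor] at h
  simp only [MonoidHom.comp_apply] at h
  have h1 : mapF (psiF r n) (iot r n (th r n w)) = 1 := by
    have : Function.Injective (alp r n (-1)) :=
      Function.LeftInverse.injective (g := alp r n 1) (alp_alp r n)
    apply this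
    rw [h, map_one]
  set u := iot r n (th r n w) with hu
  set z : Word (Cy (ord (oI r n))) := Word.equiv u with hz
  have hzu : z.prod = u := Word.equiv.symm_apply_apply u
  have hzn : Nm r n z ≤ w.norm := by
    have h2 := Bd_norm r n w (Word.empty)
    have h3 : Nm r n (Word.empty : Word (Cy (ord (oI r n)))) = 0 := by
      unfold Nm; simp [Word.empty]
    rw [h3, add_zero] at h2
    exact h2
  have h4 : z = Word.empty := by
    apply mapF_prod (psiF r n) z
    · rintro ⟨i, h⟩ hl
      simp only
      obtain ⟨a, rfl⟩ := cy_eq_zpow h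
      intro h5
      have h6 : gen (ord (o r (n + 1))) i ^ ((if i.2 = n + 1 then 2 else 1 : ℕ) * a : ℤ) = 1 := by
        have := cyHom_apply (oI r n i.2) (gen (ord (o r (n + 1))) i ^ (if i.2 = n + 1 then 2 else 1))
          (psi_aux r n i) a
        have h5' := this.symm.trans h5
        rw [← zpow_natCast, ← zpow_mul] at h5'
        exact h5'
      have h7 : ((((if i.2 = n + 1 then 2 else 1 : ℕ) * a : ℤ)) : ZMod (o r (n + 1) i.2)) = 0 := by
        unfold gen at h6
        rw [← ofAdd_zsmul, ofAdd_eq_one] at h6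
        simpa using h6
      have hne := z.ne_one _ hl
      simp only at hne
      by_cases hi : i.2 = n + 1
      · rw [if_pos hi, hi, o_le r (Nat.succ_ne_zero n) le_rfl, ZMod.intCast_zmod_eq_zero_iff_dvd] at h7
        have h8 : (r (n + 1) : ℤ) ∣ a := by
          have h9 : IsCoprime (r (n + 1) : ℤ) 2 := by
            rw [Int.isCoprime_iff_gcd_eq_one]
            have : Int.gcd (r (n + 1) : ℤ) 2 = Nat.gcd (r (n + 1)) 2 := rfl
            rw [this]
            exact Nat.coprime_two_right.2 hodd
          have h10 : (r (n + 1) : ℤ) ∣ 2 * a := by exact_mod_cast h7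
          exact h9.dvd_of_dvd_mul_left h10
        have h11 : a.natAbs ≤ Nm r n z := by
          have h12 : cst r n ⟨i, Multiplicative.ofAdd (a : ZMod (oI r n i.2))⟩ ≤ Nm r n z := by
            unfold Nm
            exact List.single_le_sum (fun _ _ => Nat.zero_le _) _ (List.mem_map_of_mem hl)
          refine le_trans ?_ h12
          unfold cst
          rw [if_pos hi]
          simp only [toAdd_ofAdd]
          have h13 : oI r n i.2 = 0 := by rw [hi, oI_succ]
          have h14 : ∀ k : ℕ, k = 0 → a.natAbs ≤ ((a : ZMod k)).val := by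
            intro k hk; subst hk; exact le_rfl
          exact h14 _ h13
        have h15 : a = 0 := by
          apply Int.eq_zero_of_abs_lt_dvd h8
          rw [Int.abs_eq_natAbs]
          have : a.natAbs < r (n + 1) := by omega
          exact_mod_cast this
        apply hne
        rw [h15, Int.cast_zero, ofAdd_zero]
      · rw [if_neg hi] at h7
        have h16 : oI r n i.2 = o r (n + 1) i.2 := by
          rw [oI_ne r hi]
          unfold o
          by_cases h0 : i.2 = 0
          · rw [if_pos h0, if_pos h0]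
          · rw [if_neg h0, if_neg h0]
            by_cases h2 : i.2 ≤ n
            · rw [if_pos h2, if_pos (by omega)]
            · rw [if_neg h2, if_neg (by omega)]
        apply hne
        have h17 : (a : ZMod (oI r n i.2)) = 0 := by
          rw [h16]
          simpa using h7
        rw [h17, ofAdd_zero]
    · rw [hzu]; exact h1
  have h5 : u = 1 := by rw [← hzu, h4, Word.prod_empty]
  have h6 := iot'_iot r n (th r n w)
  rw [← hu, h5, map_one] at h6
  exact h6.symm

end Pool.Agent.Hhelper66.Sep
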