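import Mathlib
import Pool.Agent.Hhelper66.Sep.Short

/-!
The limit group `M`, its symmetries and its torsion elements.
-/

set_option autoImplicit false
set_option linter.unusedSectionVars false

namespace Pool.Agent.Hhelper66.Sep

open Monoid CoprodI Filter

variable (r : ℕ → ℕ)

/-- words that are eventually trivial -/
def KK : Subgroup (FreeGroup T) where
  carrier := {w | ∀ᶠ n in atTop, th r n w = 1}
  mul_mem' := by
    intro a b ha hb
    filter_upwards [ha, hb] with n h1 h2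
    rw [map_mul, h1, h2, one_mul]
  one_mem' := by
    filter_upwards with n
    rw [map_one]
  inv_mem' := by
    intro a ha
    filter_upwards [ha] with n h1
    rw [map_inv, h1, inv_one]

lemma mem_KK {w : FreeGroup T} : w ∈ KK r ↔ ∀ᶠ n in atTop, th r n w = 1 := Iff.rfl

instance KK_normal : (KK r).Normal where
  conj_mem := by
    intro a ha b
    filter_upwards [mem_KK r |>.1 ha] with n h1
    rw [map_mul, map_mul, h1, mul_one, map_inv, mul_inv_cancel]

lemma th_mono {n m : ℕ} (h : n ≤ m) {w : FreeGroup T} (hw : th r n w = 1) : th r m w = 1 := by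
  induction m, h using Nat.le_induction with
  | base => exact hw
  | succ m _ ih => rw [← kap_th_apply, ih, map_one]

lemma mem_KK_of {n : ℕ} {w : FreeGroup T} (hw : th r n w = 1) : w ∈ KK r := by
  rw [mem_KK]
  filter_upwards [eventually_ge_atTop n] with m hm
  exact th_mono r hm hw

lemma KK_short {n : ℕ} {w : FreeGroup T} (hodd : ∀ j, Odd (r j))
    (hw : ∀ j, n < j → w.norm < r j) (h : w ∈ KK r) : th r n w = 1 := by
  obtain ⟨m, hm⟩ := ((mem_KK r).1 h).exists_forall_of_atTop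
  have h1 : th r (n + m) w = 1 := hm _ (by omega)
  have key : ∀ k, th r (n + k) w = 1 → th r n w = 1 := by
    intro k
    induction k with
    | zero => exact id
    | succ k ih =>
      intro hk
      apply ih
      exact th_short r (n + k) (hodd _) (hw _ (by omega)) hk
  exact key m h1

/-- the limit group -/
abbrev MM : Type := FreeGroup T ⧸ KK r

/-- its generators -/
def aa (x : T) : MM r := QuotientGroup.mk (FreeGroup.of x)

lemma mk_eq_iff {u v : FreeGroup T} : (QuotientGroup.mk u : MM r) = QuotientGroup.mk v ↔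
    v⁻¹ * u ∈ KK r := by
  rw [eq_comm]; exact QuotientGroup.eq

/-! ### symmetries -/

/-- the tree automorphism -/
def hT (c : ℤ → ℕ) (d : ℤ) (x : T) : T := (x.1 + d, x.2 ^^^ c x.1)

/-- compatibility of the translation sequence -/
def Cc (c : ℤ → ℕ) : Prop := ∀ k, c (k + 1) = c k / 2

lemma par_hT {c : ℤ → ℕ} (hc : Cc c) (d : ℤ) (x : T) : par (hT c d x) = hT c d (par x) := by
  unfold par hT
  simp only
  rw [Nat.xor_div_two, hc]
  ext
  · simp only; ring
  · rfl

lemma par_iter_hT {c : ℤ → ℕ} (hc : Cc c) (d : ℤ) (x : T) (i : ℕ) :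
    par^[i] (hT c d x) = hT c d (par^[i] x) := by
  induction i with
  | zero => rfl
  | succ i ih => rw [Function.iterate_succ_apply', Function.iterate_succ_apply', ih, par_hT hc]

/-- the sign twist -/
def ep (c : ℤ → ℕ) (k : ℤ) : ℤ := if c k % 2 = 0 then 1 else -1

lemma sz_hT (c : ℤ → ℕ) (d : ℤ) (x : T) : sz (hT c d x) = ep c x.1 * sz x := by
  unfold sz hT ep
  simp only
  rw [Nat.xor_mod_two_eq, Nat.add_mod]
  rcases Nat.mod_two_eq_zero_or_one x.2 with h | h <;>
    rcases Nat.mod_two_eq_zero_or_one (c x.1) with h' | h' <;> simp [h, h']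

/-- the automorphism of the approximating groups -/
def hS (c : ℤ → ℕ) (d : ℤ) (m : ℕ → ℕ) : Wd m →* Wd m :=
  lft m (fun y j => if j = 0 then g m (hT c d y) 0 else g m (hT c d y) j ^ ep c (y.1 - 1)) (by
    intro y j
    split_ifs with h
    · subst h; exact g_pow _ _ _
    · rw [← zpow_natCast, ← zpow_mul, mul_comm, zpow_mul, zpow_natCast, g_pow, one_zpow])

lemma hS_zero (c : ℤ → ℕ) (d : ℤ) (m : ℕ → ℕ) (y : T) :
    hS c d m (g m y 0) = g m (hT c d y) 0 := by
  unfold hS; rw [lft_g]; simp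

lemma hS_pos (c : ℤ → ℕ) (d : ℤ) (m : ℕ → ℕ) (y : T) {j : ℕ} (hj : j ≠ 0) :
    hS c d m (g m y j) = g m (hT c d y) j ^ ep c (y.1 - 1) := by
  unfold hS; rw [lft_g]; simp [hj]

lemma hS_pp {c : ℤ → ℕ} (hc : Cc c) (d : ℤ) (m : ℕ → ℕ) (x : T) (i : ℕ) :
    hS c d m (pp m x i) = pp m (hT c d x) i := by
  induction i with
  | zero => simp [pp]
  | succ i ih =>
    simp only [pp, map_mul, map_zpow]
    rw [ih, hS_pos c d m _ (Nat.succ_ne_zero i), par_iter_hT hc, par_iter_hT hc, sz_hT, ← zpow_mul]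
    congr 3
    rw [Function.iterate_succ_apply']
    unfold par
    simp

lemma hS_Ax {c : ℤ → ℕ} (hc : Cc c) (d : ℤ) (m : ℕ → ℕ) (n : ℕ) (x : T) :
    hS c d m (Ax m n x) = Ax m n (hT c d x) := by
  unfold Ax
  rw [map_mul, hS_zero, hS_pp hc, par_iter_hT hc]

lemma th_map {c : ℤ → ℕ} (hc : Cc c) (d : ℤ) (n : ℕ) (w : FreeGroup T) :
    th r n (FreeGroup.map (hT c d) w) = hS c d (o r n) (th r n w) := by
  have : (th r n).comp (FreeGroup.map (hT c d)) = (hS c d (o r n)).comp (th r n) := by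
    ext x
    simp only [MonoidHom.comp_apply, FreeGroup.map.of, th_of, hS_Ax hc]
  exact DFunLike.congr_fun this w

lemma KK_map {c : ℤ → ℕ} (hc : Cc c) (d : ℤ) : KK r ≤ (KK r).comap (FreeGroup.map (hT c d)) := by
  intro w hw
  rw [Subgroup.mem_comap, mem_KK]
  filter_upwards [(mem_KK r).1 hw] with n h1
  rw [th_map r hc, h1, map_one]

/-- the induced homomorphism of the limit group -/
def hM {c : ℤ → ℕ} (hc : Cc c) (d : ℤ) : MM r →* MM r :=
  QuotientGroup.map (KK r) (KK r) (FreeGroup.map (hT c d)) (KK_map r hc d)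

lemma hM_mk {c : ℤ → ℕ} (hc : Cc c) (d : ℤ) (w : FreeGroup T) :
    hM r hc d (QuotientGroup.mk w) = QuotientGroup.mk (FreeGroup.map (hT c d) w) := rfl

lemma hM_aa {c : ℤ → ℕ} (hc : Cc c) (d : ℤ) (x : T) : hM r hc d (aa r x) = aa r (hT c d x) := by
  unfold aa
  rw [hM_mk, FreeGroup.map.of]

/-- inverse translation sequence -/
def cinv (c : ℤ → ℕ) (d : ℤ) : ℤ → ℕ := fun k => c (k - d)

lemma Cc_cinv {c : ℤ → ℕ} (hc : Cc c) (d : ℤ) : Cc (cinv c d) := by
  intro k
  unfold cinv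
  rw [show k + 1 - d = (k - d) + 1 by ring]
  exact hc _

lemma hT_inv (c : ℤ → ℕ) (d : ℤ) (x : T) : hT (cinv c d) (-d) (hT c d x) = x := by
  unfold hT cinv
  ext
  · simp
  · simp

lemma hT_inv' (c : ℤ → ℕ) (d : ℤ) (x : T) : hT c d (hT (cinv c d) (-d) x) = x := by
  unfold hT cinv
  ext
  · simp
  · simp [sub_eq_add_neg]

lemma hM_inv {c : ℤ → ℕ} (hc : Cc c) (d : ℤ) (u : MM r) :
    hM r (Cc_cinv hc d) (-d) (hM r hc d u) = u := by
  obtain ⟨w, rfl⟩ := QuotientGroup.mk_surjective u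
  rw [hM_mk, hM_mk]
  congr 1
  rw [FreeGroup.map.comp]
  have : (hT (cinv c d) (-d)) ∘ (hT c d) = id := by
    funext x; exact hT_inv c d x
  rw [this]
  exact FreeGroup.map.id' w

lemma hM_inv' {c : ℤ → ℕ} (hc : Cc c) (d : ℤ) (u : MM r) :
    hM r hc d (hM r (Cc_cinv hc d) (-d) u) = u := by
  obtain ⟨w, rfl⟩ := QuotientGroup.mk_surjective u
  rw [hM_mk, hM_mk]
  congr 1
  rw [FreeGroup.map.comp]
  have : (hT c d) ∘ (hT (cinv c d) (-d)) = id := by
    funext x; exact hT_inv' c d x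
  rw [this]
  exact FreeGroup.map.id' w

/-- transitivity on the tree -/
lemma exists_hT (x x' : T) : ∃ (c : ℤ → ℕ) (d : ℤ), Cc c ∧ hT c d x = x' := by
  refine ⟨fun k => if x.1 ≤ k then (x.2 ^^^ x'.2) / 2 ^ (k - x.1).toNat
    else (x.2 ^^^ x'.2) * 2 ^ (x.1 - k).toNat, x'.1 - x.1, ?_, ?_⟩
  · intro k
    simp only
    by_cases h : x.1 ≤ k
    · rw [if_pos h, if_pos (by omega)]
      have : (k + 1 - x.1).toNat = (k - x.1).toNat + 1 := by omega
      rw [this, pow_succ, Nat.div_div_eq_div_mul]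
    · rw [if_neg h]
      by_cases h' : x.1 ≤ k + 1
      · rw [if_pos h']
        have h1 : (k + 1 - x.1).toNat = 0 := by omega
        have h2 : (x.1 - k).toNat = 1 := by omega
        rw [h1, h2]
        simp
      · rw [if_neg h']
        have h1 : (x.1 - k).toNat = (x.1 - (k + 1)).toNat + 1 := by omega
        rw [h1, pow_succ, ← mul_assoc, Nat.mul_div_cancel _ (by norm_num)]
  · unfold hT
    ext
    · simp
    · simp

/-! ### torsion -/

/-- tails of the products -/
def tl (m : ℕ → ℕ) : ℕ → ℕ → T → Wd m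
  | 0, _, z => g m z 0
  | k + 1, j, z => tl m k (j + 1) (par z) * g m (par z) (j + 1) ^ sz z

lemma tl_pp (m : ℕ → ℕ) (x : T) : ∀ k j, tl m k j (par^[j] x) * pp m x j = Ax m (k + j) x := by
  intro k
  induction k with
  | zero => intro j; rw [Nat.zero_add]; rfl
  | succ k ih =>
    intro j
    have := ih (j + 1)
    rw [tl, mul_assoc, ← Function.iterate_succ_apply' par j x, show k + 1 + j = k + (j + 1) by ring,
      ← this]
    rfl

lemma Ax_eq_tl (m : ℕ → ℕ) (x : T) (n : ℕ) : Ax m n x = tl m n 0 x := by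
  have := tl_pp m x n 0
  simp only [pp, mul_one, Function.iterate_zero, id, Nat.add_zero] at this
  exact this.symm

/-- the words representing the tails; second component: the torsion word of the next level -/
def XX : ℕ → T → FreeGroup T
  | 0, z => FreeGroup.of z
  | j + 1, z => XX j (ch0 z) * (((XX j (ch1 z))⁻¹ * XX j (ch0 z)) ^ ((r (j + 1) + 1) / 2))⁻¹

/-- torsion words -/
def SS (j : ℕ) (z : T) : FreeGroup T :=
  ((XX r j (ch1 z))⁻¹ * XX r j (ch0 z)) ^ ((r (j + 1) + 1) / 2)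

lemma th_XX (hodd : ∀ j, Odd (r j)) : ∀ (j : ℕ) (z : T) (k : ℕ),
    th r (k + j) (XX r j z) = tl (o r (k + j)) k j z ∧
    th r (k + 1 + j) (SS r j z) = g (o r (k + 1 + j)) z (j + 1) := by
  intro j
  induction j with
  | zero =>
    intro z k
    have h0 : ∀ (n : ℕ) (y : T), th r n (XX r 0 y) = tl (o r n) n 0 y := by
      intro n y
      rw [XX, th_of, Ax_eq_tl]
    refine ⟨h0 _ _, ?_⟩
    unfold SS
    simp only [map_pow, map_mul, map_inv, h0]
    simp only [Nat.add_zero, tl, par_ch0, par_ch1, sz_ch0, sz_ch1, mul_inv_rev, Nat.zero_add]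
    obtain ⟨s, hs⟩ := hodd 1
    have h1 : (g (o r (k + 1)) z 1) ^ (r 1) = 1 := g_pow_le r (by norm_num) (by omega) z
    have h2 : ∀ t : Wd (o r (k + 1)), ((g (o r (k + 1)) z 1 ^ (-1 : ℤ))⁻¹ * t⁻¹ *
        (t * g (o r (k + 1)) z 1 ^ (1 : ℤ))) = g (o r (k + 1)) z 1 ^ 2 := by
      intro t; rw [pow_two]; group
    rw [h2, ← pow_mul]
    have h3 : 2 * ((r 1 + 1) / 2) = r 1 + 1 := by omega
    rw [h3, pow_succ, h1, one_mul]
  | succ j ih =>
    intro z k
    have hX : ∀ (n : ℕ) (y : T), j ≤ n → th r n (XX r j y) = tl (o r n) (n - j) j y := by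
      intro n y hn
      have := (ih y (n - j)).1
      rwa [Nat.sub_add_cancel hn] at this
    have hcalc : ∀ (n k : ℕ) (y : T), n = k + (j + 1) →
        th r n (SS r j y) = g (o r n) y (j + 1) := by
      intro n k y hn
      have := (ih y k).2
      have h1 : n = k + 1 + j := by omega
      subst h1
      exact this
    have hX1 : ∀ (k : ℕ) (y : T), th r (k + (j + 1)) (XX r (j + 1) y) =
        tl (o r (k + (j + 1))) k (j + 1) y := by
      intro k y
      have h1 : XX r (j + 1) y = XX r j (ch0 y) * (SS r j y)⁻¹ := rfl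
      rw [h1, map_mul, map_inv, hcalc _ k y rfl, hX _ _ (by omega)]
      have h2 : k + (j + 1) - j = k + 1 := by omega
      rw [h2, tl, par_ch0, sz_ch0, zpow_one, mul_inv_cancel_right]
    refine ⟨hX1 k z, ?_⟩
    unfold SS
    have h4 : k + 1 + (j + 1) = (k + 1) + (j + 1) := rfl
    simp only [map_pow, map_mul, map_inv, hX1]
    simp only [tl, par_ch0, par_ch1, sz_ch0, sz_ch1, mul_inv_rev]
    obtain ⟨s, hs⟩ := hodd (j + 1 + 1)
    have h1 : (g (o r (k + 1 + (j + 1))) z (j + 1 + 1)) ^ (r (j + 1 + 1)) = 1 :=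
      g_pow_le r (by omega) (by omega) z
    have h2 : ∀ t : Wd (o r (k + 1 + (j + 1))),
        ((g (o r (k + 1 + (j + 1))) z (j + 1 + 1) ^ (-1 : ℤ))⁻¹ * t⁻¹ *
        (t * g (o r (k + 1 + (j + 1))) z (j + 1 + 1) ^ (1 : ℤ))) =
        g (o r (k + 1 + (j + 1))) z (j + 1 + 1) ^ 2 := by
      intro t; rw [pow_two]; group
    rw [h2, ← pow_mul]
    have h3 : 2 * ((r (j + 1 + 1) + 1) / 2) = r (j + 1 + 1) + 1 := by omega
    rw [h3, pow_succ, h1, one_mul]

lemma g_pow_eq_one {m : ℕ → ℕ} {y : T} {j k : ℕ} (h : g m y j ^ k = 1) : m j ∣ k := by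
  unfold g at h
  rw [← map_pow] at h
  have h1 : gen (ord m) (y, j) ^ k = 1 := by
    apply of_injective (M := Cy (ord m)) (y, j)
    rw [h, map_one]
  unfold gen at h1
  rw [← ofAdd_nsmul, ofAdd_eq_one, nsmul_one] at h1
  exact (ZMod.natCast_eq_zero_iff _ _).1 h1

/-- elements of order `r (j + 1)` -/
lemma exists_order (hodd : ∀ j, Odd (r j)) (j : ℕ) : ∃ u : MM r, orderOf u = r (j + 1) := by
  have key : ∀ n, j + 1 ≤ n → th r n (SS r j (0, 0)) = g (o r n) (0, 0) (j + 1) := by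
    intro n hn
    have := (th_XX r hodd j (0, 0) (n - 1 - j)).2
    have h1 : n - 1 - j + 1 + j = n := by omega
    rwa [h1] at this
  refine ⟨QuotientGroup.mk (SS r j (0, 0)), ?_⟩
  apply Nat.dvd_antisymm
  · apply orderOf_dvd_of_pow_eq_one
    rw [← QuotientGroup.mk_pow, QuotientGroup.eq_one_iff, mem_KK]
    filter_upwards [eventually_ge_atTop (j + 1)] with n hn
    rw [map_pow, key n hn]
    exact g_pow_le r (by omega) hn _
  · have h1 : (QuotientGroup.mk (SS r j (0, 0)) : MM r) ^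
        orderOf (QuotientGroup.mk (SS r j (0, 0)) : MM r) = 1 := pow_orderOf_eq_one _
    rw [← QuotientGroup.mk_pow, QuotientGroup.eq_one_iff, mem_KK] at h1
    obtain ⟨n, hn, hn'⟩ := (h1.and (eventually_ge_atTop (j + 1))).exists
    rw [map_pow, key n hn'] at hn
    have := g_pow_eq_one hn
    rwa [o_le r (by omega) hn'] at this

end Pool.Agent.Hhelper66.Sep
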