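import Mathlib
import Pool.Agent.Hhelper66.Sep.Limit
import Pool.Agent.Hhelper66.Sep.Hyp

/-!
The graph on `M × T`.
-/

set_option autoImplicit false
set_option linter.unusedSectionVars false

namespace Pool.Agent.Hhelper66.Sep

open Monoid CoprodI Filter

variable (r : ℕ → ℕ)

/-- the directed edges -/
def Ed (u v : MM r × T) : Prop :=
  (u.1 = v.1 ∧ v.2 = par u.2) ∨ (u.2 = v.2 ∧ v.1 = aa r u.2 * u.1)

/-- the graph -/
def GG : SimpleGraph (MM r × T) := SimpleGraph.fromRel (Ed r)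

lemma GG_adj {u v : MM r × T} : (GG r).Adj u v ↔ u ≠ v ∧ (Ed r u v ∨ Ed r v u) :=
  SimpleGraph.fromRel_adj _ _ _

lemma reach_of_Ed {u v : MM r × T} (h : Ed r u v) : (GG r).Reachable u v := by
  by_cases huv : u = v
  · rw [huv]
  · exact SimpleGraph.Adj.reachable ((GG_adj r).2 ⟨huv, Or.inl h⟩)

lemma reach_par_iter (μ : MM r) (x : T) (i : ℕ) : (GG r).Reachable (μ, x) (μ, par^[i] x) := by
  induction i with
  | zero => exact SimpleGraph.Reachable.refl _
  | succ i ih =>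
    rw [Function.iterate_succ_apply']
    exact ih.trans (reach_of_Ed r (Or.inl ⟨rfl, rfl⟩))

lemma common_ancestor (x y : T) : ∃ i j : ℕ, par^[i] x = par^[j] y := by
  obtain ⟨k, s⟩ := x
  obtain ⟨k', s'⟩ := y
  refine ⟨(k' - k).toNat + (s + s'), (k - k').toNat + (s + s'), ?_⟩
  rw [par_iter, par_iter]
  have h1 : s / 2 ^ ((k' - k).toNat + (s + s')) = 0 := by
    apply Nat.div_eq_of_lt
    calc s < 2 ^ s := Nat.lt_two_pow_self
      _ ≤ _ := Nat.pow_le_pow_right (by norm_num) (by omega)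
  have h2 : s' / 2 ^ ((k - k').toNat + (s + s')) = 0 := by
    apply Nat.div_eq_of_lt
    calc s' < 2 ^ s' := Nat.lt_two_pow_self
      _ ≤ _ := Nat.pow_le_pow_right (by norm_num) (by omega)
  simp only
  rw [h1, h2]
  refine Prod.ext ?_ rfl
  change k + (((k' - k).toNat + (s + s') : ℕ) : ℤ) = k' + (((k - k').toNat + (s + s') : ℕ) : ℤ)
  omega

lemma reach_tree (μ : MM r) (x y : T) : (GG r).Reachable (μ, x) (μ, y) := by
  obtain ⟨i, j, hij⟩ := common_ancestor x y
  exact (reach_par_iter r μ x i).trans (hij ▸ (reach_par_iter r μ y j).symm)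

lemma reach_aa (μ : MM r) (x : T) : (GG r).Reachable (μ, x) (aa r x * μ, x) :=
  reach_of_Ed r (Or.inr ⟨rfl, rfl⟩)

lemma reach_group (w : FreeGroup T) : ∀ (μ : MM r) (x : T),
    (GG r).Reachable (μ, x) ((QuotientGroup.mk w : MM r) * μ, x) := by
  induction w using FreeGroup.induction_on with
  | C1 =>
    intro μ x
    rw [QuotientGroup.mk_one, one_mul]
  | of y =>
    intro μ x
    exact ((reach_tree r μ x y).trans (reach_aa r μ y)).trans (reach_tree r _ y x)
  | inv_of y _ =>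
    intro μ x
    have h1 := reach_aa r ((aa r y)⁻¹ * μ) y
    rw [mul_inv_cancel_left] at h1
    exact ((reach_tree r μ x y).trans h1.symm).trans (reach_tree r _ y x)
  | mul a b iha ihb =>
    intro μ x
    rw [QuotientGroup.mk_mul, mul_assoc]
    exact (ihb μ x).trans (iha _ x)

theorem GG_connected : (GG r).Connected := by
  have : Nonempty (MM r × T) := ⟨(1, (0, 0))⟩
  refine ⟨?_⟩
  intro u v
  obtain ⟨μ, x⟩ := u
  obtain ⟨ν, y⟩ := v
  obtain ⟨w, hw⟩ := QuotientGroup.mk_surjective (ν * μ⁻¹)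
  have h1 := reach_group r w μ x
  rw [hw, inv_mul_cancel_right] at h1
  exact h1.trans (reach_tree r ν x y)

theorem GG_locallyFinite : IsLocallyFinite (GG r) := by
  rintro ⟨μ, x⟩
  refine (Set.toFinite ({(μ, par x), (μ, ch0 x), (μ, ch1 x), (aa r x * μ, x),
    ((aa r x)⁻¹ * μ, x)} : Set (MM r × T))).subset ?_
  rintro ⟨ν, y⟩ h
  rw [SimpleGraph.mem_neighborSet, GG_adj] at h
  obtain ⟨-, (⟨h1, h2⟩ | ⟨h1, h2⟩) | (⟨h1, h2⟩ | ⟨h1, h2⟩)⟩ := h
  · simp only at h1 h2; subst h1 h2; simp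
  · simp only at h1 h2; subst h1 h2; simp
  · simp only at h1 h2; subst h1 h2
    by_cases hy : y.2 % 2 = 0
    · right; left; rw [ch0_par hy]
    · right; right; left; rw [ch1_par hy]
  · simp only at h1 h2; subst h1 h2; simp

/-- the automorphisms of the graph -/
def autG {c : ℤ → ℕ} (hc : Cc c) (d : ℤ) (ν : MM r) : GG r ≃g GG r where
  toFun u := (hM r hc d u.1 * ν, hT c d u.2)
  invFun u := (hM r (Cc_cinv hc d) (-d) (u.1 * ν⁻¹), hT (cinv c d) (-d) u.2)
  left_inv := by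
    rintro ⟨μ, x⟩
    simp only [mul_inv_cancel_right, hM_inv, hT_inv]
  right_inv := by
    rintro ⟨μ, x⟩
    simp only [hM_inv', hT_inv', inv_mul_cancel_right]
  map_rel_iff' := by
    have hEd : ∀ u v : MM r × T, Ed r (hM r hc d u.1 * ν, hT c d u.2)
        (hM r hc d v.1 * ν, hT c d v.2) ↔ Ed r u v := by
      rintro ⟨μ, x⟩ ⟨μ', x'⟩
      have hMinj : Function.Injective (hM r hc d) :=
        Function.LeftInverse.injective (hM_inv r hc d)
      have hTinj : Function.Injective (hT c d) :=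
        Function.LeftInverse.injective (hT_inv c d)
      unfold Ed
      simp only
      rw [par_hT hc, hTinj.eq_iff, hTinj.eq_iff, ← hM_aa r hc, ← mul_assoc, ← map_mul,
        mul_left_inj, mul_left_inj, hMinj.eq_iff, hMinj.eq_iff]
    intro u v
    have hinj : ((hM r hc d u.1 * ν, hT c d u.2) : MM r × T) ≠ (hM r hc d v.1 * ν, hT c d v.2) ↔
        u ≠ v := by
      have hMinj : Function.Injective (hM r hc d) :=
        Function.LeftInverse.injective (hM_inv r hc d)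
      have hTinj : Function.Injective (hT c d) :=
        Function.LeftInverse.injective (hT_inv c d)
      rw [not_iff_not]
      constructor
      · intro h
        simp only [Prod.mk.injEq, mul_left_inj] at h
        exact Prod.ext (hMinj h.1) (hTinj h.2)
      · rintro rfl; rfl
    change (GG r).Adj (hM r hc d u.1 * ν, hT c d u.2) (hM r hc d v.1 * ν, hT c d v.2) ↔ _
    rw [GG_adj, GG_adj, hEd, hEd, hinj]

theorem GG_transitive : IsVertexTransitive (GG r) := by
  rintro ⟨μ, x⟩ ⟨μ', x'⟩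
  obtain ⟨c, d, hc, hx⟩ := exists_hT x x'
  refine ⟨autG r hc d ((hM r hc d μ)⁻¹ * μ'), ?_⟩
  change ((hM r hc d μ * ((hM r hc d μ)⁻¹ * μ'), hT c d x) : MM r × T) = (μ', x')
  rw [hx, mul_inv_cancel_left]

/-- right multiplication as an automorphism -/
def mulG (ν : MM r) : GG r ≃g GG r where
  toFun u := (u.1 * ν, u.2)
  invFun u := (u.1 * ν⁻¹, u.2)
  left_inv := by rintro ⟨μ, x⟩; simp
  right_inv := by rintro ⟨μ, x⟩; simp
  map_rel_iff' := by
    rintro ⟨μ, x⟩ ⟨μ', x'⟩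
    change (GG r).Adj (μ * ν, x) (μ' * ν, x') ↔ _
    rw [GG_adj, GG_adj]
    unfold Ed
    simp only [← mul_assoc, mul_left_inj, ne_eq, Prod.mk.injEq]

theorem GG_not_hyperbolic (hodd : ∀ j, Odd (r j)) (hunb : ∀ B, ∃ j, B < r (j + 1)) :
    ¬ IsHyperbolic (GG r) := by
  apply not_hyperbolic_of (GG_connected r) (GG_locallyFinite r) (GG_transitive r)
  intro B
  obtain ⟨j, hj⟩ := hunb B
  obtain ⟨ρ, hρ⟩ := exists_order r hodd j
  refine ⟨r (j + 1), fun k => mulG r (ρ ^ (k : ℕ)), hj, ?_, ?_⟩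
  · rintro ⟨μ, x⟩ k l h
    change ((μ * ρ ^ (k : ℕ), x) : MM r × T) = (μ * ρ ^ (l : ℕ), x) at h
    simp only [Prod.mk.injEq, mul_right_inj, and_true] at h
    have := pow_injOn_Iio_orderOf (x := ρ) (by rw [hρ]; exact k.2) (by rw [hρ]; exact l.2) h
    exact Fin.ext this
  · intro l k
    have hpos : 0 < r (j + 1) := by omega
    refine ⟨⟨((k : ℕ) + (r (j + 1) - (l : ℕ))) % r (j + 1), Nat.mod_lt _ hpos⟩, ?_⟩
    rintro ⟨μ, x⟩
    change ((μ * ρ ^ (((k : ℕ) + (r (j + 1) - (l : ℕ))) % r (j + 1)) * ρ ^ (l : ℕ), x) : MM r × T) =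
      (μ * ρ ^ (k : ℕ), x)
    have h1 : ρ ^ (((k : ℕ) + (r (j + 1) - (l : ℕ))) % r (j + 1)) =
        ρ ^ ((k : ℕ) + (r (j + 1) - (l : ℕ))) := by
      have := pow_mod_orderOf ρ ((k : ℕ) + (r (j + 1) - (l : ℕ)))
      rwa [hρ] at this
    have h2 : (k : ℕ) + (r (j + 1) - (l : ℕ)) + (l : ℕ) = (k : ℕ) + r (j + 1) := by
      have := l.2
      omega
    have h3 : ρ ^ r (j + 1) = 1 := by rw [← hρ]; exact pow_orderOf_eq_one ρ
    rw [h1, mul_assoc, ← pow_add, h2, pow_add, h3, mul_one]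

end Pool.Agent.Hhelper66.Sep
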