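import Mathlib
import Pool.Agent.Hhelper66.Sep.Graph

/-!
Small separators in the graph.
-/

set_option autoImplicit false
set_option linter.unusedSectionVars false

namespace Pool.Agent.Hhelper66.Sep

open Monoid CoprodI Filter Relation

variable (r : ℕ → ℕ)

lemma walk_word {Λ : (GG r).Subgraph} {a b : Λ.verts} (q : Λ.coe.Walk a b) :
    ∃ w : FreeGroup T, w.norm ≤ q.length ∧ (QuotientGroup.mk w : MM r) * a.1.1 = b.1.1 := by
  induction q with
  | nil => exact ⟨1, by simp, by rw [QuotientGroup.mk_one, one_mul]⟩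
  | @cons a a' b h q ih =>
    obtain ⟨w', hw', hw'2⟩ := ih
    have hadj : (GG r).Adj a.1 a'.1 := Λ.adj_sub h
    rw [GG_adj] at hadj
    rw [SimpleGraph.Walk.length_cons]
    obtain ⟨-, (⟨h1, h2⟩ | ⟨h1, h2⟩) | (⟨h1, h2⟩ | ⟨h1, h2⟩)⟩ := hadj
    · exact ⟨w', by omega, by rw [h1]; exact hw'2⟩
    · refine ⟨w' * FreeGroup.of a.1.2, ?_, ?_⟩
      · refine (FreeGroup.norm_mul_le _ _).trans ?_
        rw [FreeGroup.norm_of]; omega
      · rw [QuotientGroup.mk_mul, mul_assoc, ← hw'2, h2]; rfl
    · exact ⟨w', by omega, by rw [← h1]; exact hw'2⟩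
    · refine ⟨w' * (FreeGroup.of a'.1.2)⁻¹, ?_, ?_⟩
      · refine (FreeGroup.norm_mul_le _ _).trans ?_
        rw [FreeGroup.norm_inv_eq, FreeGroup.norm_of]; omega
      · rw [QuotientGroup.mk_mul, mul_assoc, ← hw'2, h2, QuotientGroup.mk_inv]
        unfold aa
        rw [inv_mul_cancel_left]

variable (n : ℕ) (P : Type)

/-- the elimination relation for stage `n` -/
abbrev EAn : VV (ord (o r n)) P → VV (ord (o r n)) P → Prop :=
  EA (ord (o r n)) (fun i : T × ℕ => i.1) n P

lemma step_letter (hr : ∀ j, r j ≠ 1) (p : P) (w : Word (Cy (ord (o r n)))) (x : T) {i : ℕ}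
    (hi : i < n) : Adj' (EAn r n P) (p, w, (x, i))
      (p, (g (o r n) (par^[i + 1] x) (i + 1) ^ sz (par^[i] x)) • w, (x, i + 1)) := by
  have hord : ord (o r n) (par^[i + 1] x, i + 1) ≠ 1 := by
    change o r n (i + 1) ≠ 1
    rw [o_le r (Nat.succ_ne_zero i) hi]
    exact hr _
  have hx : x ∈ Dl n ((fun i : T × ℕ => i.1) (par^[i + 1] x, i + 1)) := ⟨i + 1, hi, rfl⟩
  rcases sz_eq (par^[i] x) with h | h
  · rw [h, zpow_one]
    exact EA_step (ord (o r n)) (fun i : T × ℕ => i.1) n P hord p w x hx (by omega) hi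
  · rw [h, zpow_neg_one]
    have := EA_step (ord (o r n)) (fun i : T × ℕ => i.1) n P hord p
      ((g (o r n) (par^[i + 1] x) (i + 1))⁻¹ • w) x hx (a := i + 1) (b := i) hi (by omega)
    have h1 : (of (gen (ord (o r n)) (par^[i + 1] x, i + 1)) : Wd (o r n)) •
        ((g (o r n) (par^[i + 1] x) (i + 1))⁻¹ • w) = w := by
      change (g (o r n) (par^[i + 1] x) (i + 1)) • ((g (o r n) (par^[i + 1] x) (i + 1))⁻¹ • w) = w
      rw [smul_inv_smul]
    rw [h1] at this
    exact this.symm

lemma step_last (p : P) (w : Word (Cy (ord (o r n)))) (x : T) :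
    Adj' (EAn r n P) (p, w, (x, n)) (p, (g (o r n) (par^[n] x) 0) • w, (x, 0)) := by
  have hord : ord (o r n) (par^[n] x, 0) ≠ 1 := by
    change o r n 0 ≠ 1
    rw [o_zero]; norm_num
  have hx : x ∈ Dl n ((fun i : T × ℕ => i.1) (par^[n] x, 0)) := ⟨n, le_rfl, rfl⟩
  exact EA_step (ord (o r n)) (fun i : T × ℕ => i.1) n P hord p w x hx le_rfl (Nat.zero_le _)

lemma smul_empty_inj {m : ℕ → ℕ} {a b : Wd m} (h : a • (Word.empty : Word (Cy (ord m))) = b • Word.empty) :
    a = b := by
  exact (Word.equiv (M := Cy (ord m))).injective h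

theorem cut_bound (hodd : ∀ j, Odd (r j)) (hr : ∀ j, r j ≠ 1) (hn : 1 ≤ n) {N : ℕ}
    (hN : ∀ j, n < j → 2 * N < r j) (Λ : (GG r).Subgraph) (hfin : Λ.verts.Finite)
    (hcard : Λ.verts.ncard ≤ N) :
    cut Λ ≤ 4 * ((n + 1) * 2 ^ (n + 1)) + 1 := by
  classical
  have hF : Fintype Λ.verts := hfin.fintype
  have hcardF : Fintype.card Λ.verts = Λ.verts.ncard := by
    rw [← Nat.card_coe_set_eq, Nat.card_eq_fintype_card]
  -- base points and words
  have hbase : ∀ c : Λ.coe.ConnectedComponent, ∃ b : Λ.verts, Λ.coe.connectedComponentMk b = c :=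
    fun c => c.exists_rep
  choose base hbase using hbase
  have hword : ∀ l : Λ.verts, ∃ w : FreeGroup T, w.norm + 1 ≤ N ∧
      (QuotientGroup.mk w : MM r) * (base (Λ.coe.connectedComponentMk l)).1.1 = l.1.1 := by
    intro l
    have h1 : Λ.coe.Reachable (base (Λ.coe.connectedComponentMk l)) l := by
      rw [← SimpleGraph.ConnectedComponent.eq, hbase]
    obtain ⟨q, hq⟩ := h1.exists_isPath
    obtain ⟨w, hw1, hw2⟩ := walk_word r q
    refine ⟨w, ?_, hw2⟩
    have := hq.length_lt
    omega
  choose wd hwd1 hwd2 using hword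
  let cmp : Λ.verts → Λ.coe.ConnectedComponent := fun l => Λ.coe.connectedComponentMk l
  -- equality of images
  have hLI : ∀ (u v : FreeGroup T), u.norm + v.norm < 2 * N →
      (QuotientGroup.mk u : MM r) = QuotientGroup.mk v → th r n u = th r n v := by
    intro u v huv h
    rw [mk_eq_iff] at h
    have h1 : th r n (v⁻¹ * u) = 1 := by
      apply KK_short r hodd _ h
      intro j hj
      have h2 := FreeGroup.norm_mul_le v⁻¹ u
      rw [FreeGroup.norm_inv_eq] at h2
      have := hN j hj
      omega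
    rw [map_mul, map_inv, inv_mul_eq_one] at h1
    exact h1.symm
  let E := EAn r n Λ.coe.ConnectedComponent
  let pt : Λ.verts → ℕ → VV (ord (o r n)) Λ.coe.ConnectedComponent := fun l i =>
    (cmp l, (pp (o r n) l.1.2 i * th r n (wd l)) • Word.empty, (l.1.2, i))
  let B : Λ.verts → Set (VV (ord (o r n)) Λ.coe.ConnectedComponent) := fun l =>
    (pt l) '' (Set.Iic n)
  have hconn : ∀ l, ∀ i, i ≤ n → Conn E (B l) (pt l 0) (pt l i) := by
    intro l i
    induction i with
    | zero => intro _; exact ReflTransGen.refl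
    | succ i ih =>
      intro hi
      refine ReflTransGen.tail (ih (by omega)) ⟨⟨i + 1, hi, rfl⟩, ?_⟩
      have := step_letter r n Λ.coe.ConnectedComponent hr (cmp l)
        ((pp (o r n) l.1.2 i * th r n (wd l)) • Word.empty) l.1.2 hi
      rw [← mul_smul, ← mul_assoc] at this
      exact this
  obtain ⟨S, hS1, hS2⟩ := exists_separator (V := VV (ord (o r n)) Λ.coe.ConnectedComponent)
    (A := E) (rk := rk (ord (o r n)) Λ.coe.ConnectedComponent)
    (EA_rk _ _ _ _) (EA_chordal _ _ _ _) (fun s => (EA_fin _ _ _ _ s).1)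
    (fun s => (EA_fin _ _ _ _ s).2) Λ.coe B (fun l => (Set.finite_Iic n).image _)
    (fun l => pt l 0) (fun l => ⟨0, Nat.zero_le _, rfl⟩)
    (by
      rintro l _ ⟨i, hi, rfl⟩
      exact hconn l i hi)
    (by
      intro l l' hll
      have hcmp : cmp l = cmp l' := SimpleGraph.ConnectedComponent.sound hll.reachable
      have hb : (base (Λ.coe.connectedComponentMk l)) = base (Λ.coe.connectedComponentMk l') := by
        have : Λ.coe.connectedComponentMk l = Λ.coe.connectedComponentMk l' := hcmp
        rw [this]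
      have hadj : (GG r).Adj l.1 l'.1 := Λ.adj_sub hll
      rw [GG_adj] at hadj
      have key : ∀ l l' : Λ.verts, cmp l = cmp l' → Ed r l.1 l'.1 →
          ∃ u ∈ B l, ∃ u' ∈ B l', Adj' E u u' := by
        intro l l' hcmp hE
        have hb : (base (Λ.coe.connectedComponentMk l)) = base (Λ.coe.connectedComponentMk l') := by
          have : Λ.coe.connectedComponentMk l = Λ.coe.connectedComponentMk l' := hcmp
          rw [this]
        have h1 := hwd1 l
        have h2 := hwd1 l'
        rcases hE with ⟨h3, h4⟩ | ⟨h3, h4⟩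
        · refine ⟨pt l 0, ⟨0, Nat.zero_le _, rfl⟩, pt l' 0, ⟨0, Nat.zero_le _, rfl⟩, ?_⟩
          have h5 : th r n (wd l) = th r n (wd l') := by
            apply hLI _ _ (by omega)
            have e1 := hwd2 l
            have e2 := hwd2 l'
            rw [← hb, ← h3, ← e1] at e2
            exact (mul_right_cancel e2).symm
          have h6 : pt l' 0 = (cmp l, (pp (o r n) l.1.2 0 * th r n (wd l)) • Word.empty,
              (par l.1.2, 0)) := by
            simp only [pt, pp, ← hcmp, ← h4, h5]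
          rw [h6]
          exact EA_tree _ _ _ _ _ _ hn _
        · refine ⟨pt l n, ⟨n, Set.mem_Iic.2 le_rfl, rfl⟩, pt l' 0, ⟨0, Nat.zero_le _, rfl⟩, ?_⟩
          have h5 : th r n (FreeGroup.of l.1.2 * wd l) = th r n (wd l') := by
            apply hLI
            · have := FreeGroup.norm_mul_le (FreeGroup.of l.1.2) (wd l)
              rw [FreeGroup.norm_of] at this
              omega
            · have e1 := hwd2 l
              have e2 := hwd2 l'
              rw [← hb, h4, ← e1, ← mul_assoc] at e2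
              exact (mul_right_cancel e2).symm
          have h6 : pt l' 0 = (cmp l, g (o r n) (par^[n] l.1.2) 0 •
              ((pp (o r n) l.1.2 n * th r n (wd l)) • Word.empty), (l.1.2, 0)) := by
            rw [← mul_smul, ← mul_assoc]
            change _ = (cmp l, (Ax (o r n) n l.1.2 * th r n (wd l)) • Word.empty, (l.1.2, 0))
            rw [← th_of, ← map_mul, h5]
            simp only [pt, pp, ← hcmp, h3, one_mul]
          rw [h6]
          exact step_last _ _ _ _ _ _
      rcases hadj.2 with h | h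
      · exact key l l' hcmp h
      · obtain ⟨u, hu, u', hu', h'⟩ := key l' l hcmp.symm h
        exact ⟨u', hu', u, hu, h'.symm⟩)
    (by
      rintro l l' u ⟨i, hi, rfl⟩ ⟨i', hi', he⟩
      simp only [pt, Prod.mk.injEq] at he
      obtain ⟨hc, hw, hx, hii⟩ := he
      subst hii
      have hw' := smul_empty_inj hw
      rw [hx] at hw'
      have h1 : th r n (wd l') = th r n (wd l) := mul_left_cancel hw'
      have h2 : (QuotientGroup.mk (wd l') : MM r) = QuotientGroup.mk (wd l) := by
        rw [mk_eq_iff]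
        apply mem_KK_of r (n := n)
        rw [map_mul, map_inv, h1, inv_mul_cancel]
      have hb : (base (Λ.coe.connectedComponentMk l')) = base (Λ.coe.connectedComponentMk l) := by
        have : Λ.coe.connectedComponentMk l' = Λ.coe.connectedComponentMk l := hc
        rw [this]
      apply Subtype.ext
      refine Prod.ext ?_ hx.symm
      rw [← hwd2 l, ← hwd2 l', h2, hb])
  -- conclusion
  have hsub : (Subtype.val '' (S : Set Λ.verts)) ⊆ Λ.verts := by
    rintro _ ⟨l, _, rfl⟩; exact l.2
  have hnc : (Subtype.val '' (S : Set Λ.verts)).ncard = S.card := by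
    rw [Set.ncard_image_of_injective _ Subtype.val_injective, Set.ncard_coe_finset]
  suffices hsuff : ∀ c : (Λ.deleteVerts (Subtype.val '' (S : Set Λ.verts))).coe.ConnectedComponent,
      2 * c.supp.ncard ≤ Λ.verts.ncard by
    refine le_trans ?_ hS1
    unfold cut
    exact Nat.sInf_le ⟨Subtype.val '' (S : Set Λ.verts), hsub, hnc, hsuff⟩
  intro c
  obtain ⟨a, rfl⟩ := c.exists_rep
  have hverts : ∀ b : (Λ.deleteVerts (Subtype.val '' (S : Set Λ.verts))).verts,
      b.1 ∈ Λ.verts ∧ b.1 ∉ Subtype.val '' (S : Set Λ.verts) := by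
    rintro ⟨b, hb⟩
    exact hb
  let f : (Λ.deleteVerts (Subtype.val '' (S : Set Λ.verts))).verts → Λ.verts :=
    fun b => ⟨b.1, (hverts b).1⟩
  have hfS : ∀ b, f b ∉ S := by
    intro b hb
    exact (hverts b).2 ⟨f b, hb, rfl⟩
  have hfinj : Function.Injective f := by
    rintro ⟨b, hb⟩ ⟨b', hb'⟩ h
    simp only [f, Subtype.mk.injEq] at h
    exact Subtype.ext h
  have hreach : ∀ b, (Λ.deleteVerts (Subtype.val '' (S : Set Λ.verts))).coe.Reachable a b →
      ReachAvoid Λ.coe (S : Set Λ.verts) (f a) (f b) := by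
    intro b hb
    rw [SimpleGraph.reachable_iff_reflTransGen] at hb
    induction hb with
    | refl => exact ReflTransGen.refl
    | tail _ h2 ih =>
      refine ReflTransGen.tail ih ⟨?_, hfS _⟩
      have h3 : (Λ.deleteVerts (Subtype.val '' (S : Set Λ.verts))).Adj _ _ := h2
      rw [SimpleGraph.Subgraph.deleteVerts_adj] at h3
      exact h3.2.2.2.2
  have h1 := hS2 (f a) (hfS a)
  rw [hcardF] at h1
  refine le_trans ?_ h1
  apply Nat.mul_le_mul_left
  have h2 : ((Λ.deleteVerts (Subtype.val '' (S : Set Λ.verts))).coe.connectedComponentMk a).supp.ncard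
      = (f '' ((Λ.deleteVerts (Subtype.val '' (S : Set Λ.verts))).coe.connectedComponentMk a).supp).ncard :=
    (Set.ncard_image_of_injective _ hfinj).symm
  change ((Λ.deleteVerts (Subtype.val '' (S : Set Λ.verts))).coe.connectedComponentMk a).supp.ncard ≤ _
  rw [h2]
  refine Set.ncard_le_ncard ?_ (Set.toFinite _)
  rintro _ ⟨b, hb, rfl⟩
  apply hreach
  rw [SimpleGraph.ConnectedComponent.mem_supp_iff] at hb
  exact (SimpleGraph.ConnectedComponent.eq.1 hb).symm

end Pool.Agent.Hhelper66.Sep
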