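import Mathlib
import Pool.Agent.Hhelper66.Sep.Cut

/-!
Choice of the orders and the final statements.
-/

set_option autoImplicit false
set_option linter.unusedSectionVars false

namespace Pool.Agent.Hhelper66.Sep

open Filter

lemma cut_le_card {V : Type} {Γ : SimpleGraph V} (Λ : Γ.Subgraph) : cut Λ ≤ Λ.verts.ncard := by
  unfold cut
  refine Nat.sInf_le ⟨Λ.verts, subset_rfl, rfl, ?_⟩
  intro c
  obtain ⟨⟨a, ha⟩, -⟩ := c.exists_rep
  exact absurd ha (by simp)

lemma sep_le_of {V : Type} {Γ : SimpleGraph V} {n k : ℕ}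
    (h : ∀ Λ : Γ.Subgraph, Λ.verts.Finite → Λ.verts.ncard ≤ n → cut Λ ≤ k) : sep Γ n ≤ k := by
  unfold sep
  apply csSup_le'
  rintro _ ⟨Λ, h1, h2, rfl⟩
  exact h Λ h1 h2

lemma sep_le_self {V : Type} (Γ : SimpleGraph V) (n : ℕ) : sep Γ n ≤ n :=
  sep_le_of fun Λ _ h => (cut_le_card Λ).trans h

theorem exists_slow (f : ℕ → ℝ) (hf : Tendsto f atTop atTop) :
    ∃ (V : Type) (Γ : SimpleGraph V), Γ.Connected ∧ IsLocallyFinite Γ ∧ IsVertexTransitive Γ ∧
      (∀ᶠ n : ℕ in atTop, (sep Γ n : ℝ) ≤ f n) ∧ ¬ IsHyperbolic Γ := by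
  have h1 : ∀ n : ℕ, ∃ t : ℕ, ∀ N ≥ t, ((4 * ((n + 1) * 2 ^ (n + 1)) + 1 : ℕ) : ℝ) ≤ f N := by
    intro n
    exact (hf.eventually_ge_atTop _).exists_forall_of_atTop
  choose t ht using h1
  let r : ℕ → ℕ := fun n => 2 * (n + ∑ i ∈ Finset.range (n + 1), t i) + 3
  have hrt : ∀ n, 2 * t n + 2 * n + 3 ≤ r n := by
    intro n
    have : t n ≤ ∑ i ∈ Finset.range (n + 1), t i :=
      Finset.single_le_sum (f := t) (fun _ _ => Nat.zero_le _) (Finset.self_mem_range_succ n)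
    simp only [r]; omega
  have hodd : ∀ j, Odd (r j) := by
    intro j
    exact ⟨(j + ∑ i ∈ Finset.range (j + 1), t i) + 1, by simp only [r]; ring⟩
  have hr1 : ∀ j, r j ≠ 1 := by
    intro j; have := hrt j; omega
  refine ⟨MM r × T, GG r, GG_connected r, GG_locallyFinite r, GG_transitive r, ?_,
    GG_not_hyperbolic r hodd ?_⟩
  · filter_upwards [eventually_ge_atTop (r 1)] with N hN
    let n := Nat.findGreatest (fun n => r n ≤ 2 * N) N
    have hN1 : 1 ≤ N := by have := hrt 1; omega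
    have hn1 : 1 ≤ n := Nat.le_findGreatest hN1 (by omega)
    have hn2 : r n ≤ 2 * N :=
      Nat.findGreatest_spec (P := fun n => r n ≤ 2 * N) (m := 1) hN1 (by omega)
    have hn3 : ∀ j, n < j → 2 * N < r j := by
      intro j hj
      rcases Nat.lt_or_ge N j with h | h
      · have := hrt j; omega
      · by_contra hcon
        push Not at hcon
        exact Nat.findGreatest_is_greatest hj h hcon
    have h2 : sep (GG r) N ≤ 4 * ((n + 1) * 2 ^ (n + 1)) + 1 :=
      sep_le_of fun Λ hfin hcard => cut_bound r n hodd hr1 hn1 hn3 Λ hfin hcard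
    have h3 : t n ≤ N := by have := hrt n; omega
    calc (sep (GG r) N : ℝ) ≤ ((4 * ((n + 1) * 2 ^ (n + 1)) + 1 : ℕ) : ℝ) := by exact_mod_cast h2
      _ ≤ f N := ht n N h3
  · intro B
    exact ⟨B, by have := hrt (B + 1); omega⟩

theorem exists_log :
    ∃ (V : Type) (Γ : SimpleGraph V), Γ.Connected ∧ IsLocallyFinite Γ ∧ IsQuasiTransitive Γ ∧
      (∃ C : ℝ, ∀ n : ℕ, 2 ≤ n → (sep Γ n : ℝ) ≤ C * Real.log n) ∧ ¬ IsHyperbolic Γ := by
  obtain ⟨V, Γ, h1, h2, h3, h4, h5⟩ := exists_slow (fun n => Real.log n)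
    (Real.tendsto_log_atTop.comp tendsto_natCast_atTop_atTop)
  obtain ⟨v⟩ := h1.nonempty
  refine ⟨V, Γ, h1, h2, ⟨{v}, Set.finite_singleton v, fun u => ⟨v, rfl, h3 v u⟩⟩, ?_, h5⟩
  obtain ⟨N0, hN0⟩ := h4.exists_forall_of_atTop
  have hlog2 : 0 < Real.log 2 := Real.log_pos (by norm_num)
  refine ⟨max 1 (N0 / Real.log 2), fun n hn => ?_⟩
  have hn' : (2 : ℝ) ≤ n := by exact_mod_cast hn
  have hlog : Real.log 2 ≤ Real.log n := Real.log_le_log (by norm_num) hn'
  rcases Nat.lt_or_ge n N0 with h | h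
  · have h6 : (sep Γ n : ℝ) ≤ N0 := by
      have := sep_le_self Γ n
      have h7 : sep Γ n ≤ N0 := by omega
      exact_mod_cast h7
    calc (sep Γ n : ℝ) ≤ N0 := h6
      _ = (N0 / Real.log 2) * Real.log 2 := by field_simp
      _ ≤ max 1 (N0 / Real.log 2) * Real.log n :=
        mul_le_mul (le_max_right _ _) hlog hlog2.le (le_trans zero_le_one (le_max_left _ _))
  · calc (sep Γ n : ℝ) ≤ Real.log n := hN0 n h
      _ = 1 * Real.log n := (one_mul _).symm
      _ ≤ max 1 (N0 / Real.log 2) * Real.log n :=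
        mul_le_mul_of_nonneg_right (le_max_left _ _) (hlog2.le.trans hlog)

end Pool.Agent.Hhelper66.Sep
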